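import Pool.Agent.Helper735_BDH.Gen
import Pool.Agent.TH892.SW.S5

/-!
The von Mangoldt function minus its sieve model: exponential sums and mean square.
-/

set_option autoImplicit false

namespace Pool.Agent.Helper735_BDH

open Finset Filter
open Pool.Agent.H373R2.T7 (pz Vz lamz mem_pz sup_diff Vz_inv_small)
open Pool.Agent.W110.HV (ES)

/-- the von Mangoldt function minus the sieve model, on the integers -/
noncomputable def fm (z : ℕ) (y : ℤ) : ℝ :=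
  if 1 ≤ y then ArithmeticFunction.vonMangoldt y.toNat - lamz z y.toNat else 0

theorem sup_fm (U : ℕ) : ∃ B : ℕ, ∀ E : ℕ, ∃ N0 : ℕ, ∀ N : ℕ, N0 ≤ N → ∀ z : ℕ, Real.log N ^ B ≤ z →
    (z : ℝ) ≤ Real.log N ^ E → ∀ α : ℝ,
    ‖ES 1 (N : ℤ) (fun n => (fm z n : ℂ)) α‖ ≤ N / Real.log N ^ U := by
  obtain ⟨B, hB⟩ := sup_diff U
  refine ⟨B, fun E => ?_⟩
  obtain ⟨N0, hN0⟩ := hB E
  refine ⟨N0, fun N hN z hz1 hz2 α => ?_⟩
  rw [Pool.Agent.TH892.SW.ES_nat]
  refine le_trans (le_of_eq ?_) (hN0 N hN z hz1 hz2 α)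
  congr 1
  refine sum_congr rfl fun n hn => ?_
  rw [mem_Icc] at hn
  have h : fm z (n : ℤ) = ArithmeticFunction.vonMangoldt n - lamz z n := by
    unfold fm
    rw [if_pos (by omega), Int.toNat_natCast]
  rw [h]

lemma vM_le (n N : ℕ) (hn : 1 ≤ n) (h : n ≤ N) : ArithmeticFunction.vonMangoldt n ≤ Real.log N := by
  refine ArithmeticFunction.vonMangoldt_le_log.trans ?_
  apply Real.log_le_log (by exact_mod_cast hn)
  exact_mod_cast h

/-- the mean square -/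
lemma sq_fm (E : ℕ) : ∃ N0 : ℕ, ∀ N : ℕ, N0 ≤ N → ∀ z : ℕ, 1 ≤ z → (z : ℝ) ≤ Real.log N ^ E →
    ∑ u ∈ Icc (1 : ℤ) N, fm z u ^ 2 ≤ N * Real.log N ^ 2 := by
  obtain ⟨N2, hN2⟩ := Vz_inv_small E
  refine ⟨N2, fun N hN z hz1 hz2 => ?_⟩
  have hV := hN2 N hN z hz1 hz2
  set L := Real.log N
  have h1 : ∀ u ∈ Icc (1 : ℤ) N, fm z u ^ 2 ≤ L ^ 2 := by
    intro u hu
    rw [mem_Icc] at hu
    unfold fm
    rw [if_pos hu.1]
    apply sq_le_sq'
    · have h2 := Pool.Agent.TH892.SW.lamz_le z u.toNat hz1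
      have h3 := @ArithmeticFunction.vonMangoldt_nonneg u.toNat
      linarith
    · have h2 := Pool.Agent.H373R2.T7.lamz_nonneg z u.toNat
      have h3 := vM_le u.toNat N (by omega) (by omega)
      linarith
  calc ∑ u ∈ Icc (1 : ℤ) N, fm z u ^ 2 ≤ ∑ _u ∈ Icc (1 : ℤ) N, L ^ 2 := sum_le_sum h1
    _ = N * L ^ 2 := by
        rw [sum_const, Int.card_Icc, nsmul_eq_mul]
        have : (((N : ℤ) + 1 - 1).toNat : ℝ) = N := by
          rw [add_sub_cancel_right, Int.toNat_natCast]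
        rw [this]

end Pool.Agent.Helper735_BDH
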