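import Pool.Agent.Helper735_BDH.Cls

/-!
All classes to all moduli `q ≤ Q`, for one integer `K`.
-/

set_option autoImplicit false

namespace Pool.Agent.Helper735_BDH

open Finset Filter
open Pool.Agent.TH892.SW
open Pool.Agent.H373R2.T7 (pz Vz lamz mem_pz Vz_pos Vz_le_one)
open Pool.Agent.R460.SQ (thp ppw vm_split ppw_nn sum_ppw)

/-- the residues coprime to `q` in the sense of `n² - K` -/
def red (K : ℤ) (q : ℕ) : Finset ℕ := (range q).filter (fun r : ℕ => Int.gcd ((r : ℤ) ^ 2 - K) q = 1)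

lemma red_card (K : ℤ) (q : ℕ) : (red K q).card = ph K q := rfl

lemma ph_F (K : ℤ) (q : ℕ) (hq : 1 ≤ q) : (ph K q : ℝ) = q * Fq K q := ph_eq K q hq

lemma ph_le (K : ℤ) (q : ℕ) : ph K q ≤ q := by
  unfold ph
  exact (card_filter_le _ _).trans (card_range q).le

lemma dcard_pos (q : ℕ) (hq : 1 ≤ q) : (1 : ℝ) ≤ q.divisors.card := by
  have : 0 < q.divisors.card := Finset.card_pos.2 ⟨1, Nat.mem_divisors.2 ⟨one_dvd _, by omega⟩⟩
  exact_mod_cast this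

theorem det_main (X z G Q : ℕ) (K : ℤ) (H δ ρ1 ρ2 P : ℝ) (hM : 1 ≤ Nat.sqrt X) (hG : 1 ≤ G)
    (hH : 0 ≤ H) (hδ : 0 ≤ δ) (hρ1 : 0 ≤ ρ1) (hρ2 : 0 ≤ ρ2) (hP0 : 0 ≤ P) (hP : PPK X K ≤ P)
    (hflc : ∀ q r y : ℕ, 1 ≤ q → r < q → Int.gcd ((r : ℤ) ^ 2 - K) q = 1 →
      |mzK z K y q r - (Vz z)⁻¹ * ((y : ℝ) / q * Gq z q K)| ≤ ρ1 * ((y : ℝ) / q) + ρ2)
    (hloc : ∀ q : ℕ, 1 ≤ q → |(Vz z)⁻¹ * Gq z q K - H / Fq K q| ≤ (q.divisors.card : ℝ) ^ 3 * δ)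
    (y : ℕ → ℕ → ℕ) (hy : ∀ q r, y q r ≤ Nat.sqrt X) :
    ∑ q ∈ Icc 1 Q, ∑ r ∈ red K q, (thK K (y q r) q r - H / ph K q * y q r) ^ 2 ≤
      4 * S2 X z Q G K + 8 * (Nat.sqrt X : ℝ) ^ 2 * (ρ1 + δ) ^ 2 * (1 + Real.log Q) ^ 64 + 8 * (Q : ℝ) ^ 2 * ρ2 ^ 2 +
        4 * (Q : ℝ) ^ 2 * P ^ 2 + 4 * (H ^ 2 * ((Nat.sqrt X : ℝ) / G + 1) ^ 2 * (1 + Real.log Q) ^ 4) := by
  set M := Nat.sqrt X with hMd
  have hM0 : (0 : ℝ) ≤ M := Nat.cast_nonneg _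
  set W : ℝ := ((M : ℝ) / G + 1) ^ 2 with hW
  have hW0 : 0 ≤ W := sq_nonneg _
  set R : ℕ → ℝ := fun q => (M : ℝ) / q * ((q.divisors.card : ℝ) ^ 3 * (ρ1 + δ)) + ρ2 with hR
  -- one class
  have key : ∀ q ∈ Icc 1 Q, ∀ r ∈ red K q, (thK K (y q r) q r - H / ph K q * y q r) ^ 2 ≤
      4 * (∑ j ∈ range (G + 1), Dj X z G K q r j ^ 2) + 4 * R q ^ 2 + 4 * P ^ 2 +
        4 * ((H / ph K q) ^ 2 * W) := by
    intro q hq r hr
    rw [mem_Icc] at hq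
    unfold red at hr
    rw [mem_filter, mem_range] at hr
    have hq0 : (0 : ℝ) < q := by exact_mod_cast hq.1
    have hd := dcard_pos q hq.1
    have hd3 : (1 : ℝ) ≤ (q.divisors.card : ℝ) ^ 3 := one_le_pow₀ hd
    apply one_class_sq X z G q r (y q r) K (H / ph K q) (R q) P hM hG (by positivity) (hy q r) _ hP hP0
    intro y' hy'
    have h1 := hflc q r y' hq.1 hr.1 hr.2
    have h2 := hloc q hq.1
    have hy1 : (y' : ℝ) / q ≤ M / q := div_le_div_of_nonneg_right (by exact_mod_cast hy') hq0.le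
    have hy0 : 0 ≤ (y' : ℝ) / q := by positivity
    have hFp := Fq_pos K q
    have e1 : mzK z K y' q r - H / ph K q * y' = (mzK z K y' q r - (Vz z)⁻¹ * ((y' : ℝ) / q * Gq z q K)) +
        (y' : ℝ) / q * ((Vz z)⁻¹ * Gq z q K - H / Fq K q) := by
      rw [ph_F K q hq.1]
      field_simp
      ring
    rw [e1]
    refine (abs_add_le _ _).trans ?_
    rw [abs_mul, abs_of_nonneg hy0]
    have h3 : (y' : ℝ) / q * |(Vz z)⁻¹ * Gq z q K - H / Fq K q| ≤ M / q * ((q.divisors.card : ℝ) ^ 3 * δ) :=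
      mul_le_mul hy1 h2 (abs_nonneg _) (by positivity)
    have h4 : ρ1 * ((y' : ℝ) / q) ≤ M / q * ((q.divisors.card : ℝ) ^ 3 * ρ1) := by
      have h5 : ρ1 * ((y' : ℝ) / q) ≤ ρ1 * (M / q) := mul_le_mul_of_nonneg_left hy1 hρ1
      have h6 : (M : ℝ) / q * ρ1 ≤ M / q * ((q.divisors.card : ℝ) ^ 3 * ρ1) := by
        apply mul_le_mul_of_nonneg_left _ (by positivity)
        nlinarith
      linarith
    rw [hR]
    simp only
    have e2 : (M : ℝ) / q * ((q.divisors.card : ℝ) ^ 3 * (ρ1 + δ)) = M / q * ((q.divisors.card : ℝ) ^ 3 * ρ1) +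
        M / q * ((q.divisors.card : ℝ) ^ 3 * δ) := by ring
    linarith
  have hsub : ∀ q ∈ Icc 1 Q, ∀ F : ℕ → ℝ, (∀ r, 0 ≤ F r) → ∑ r ∈ red K q, F r ≤ ∑ r ∈ range q, F r := by
    intro q _ F hF
    exact sum_le_sum_of_subset_of_nonneg (filter_subset _ _) fun _ _ _ => hF _
  -- the first term
  have t1 : ∑ q ∈ Icc 1 Q, ∑ r ∈ red K q, ∑ j ∈ range (G + 1), Dj X z G K q r j ^ 2 ≤ S2 X z Q G K := by
    unfold S2 Om
    rw [sum_sigma]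
    refine sum_le_sum fun q hq => ?_
    rw [sum_product]
    refine (hsub q hq _ fun r => sum_nonneg fun _ _ => sq_nonneg _).trans ?_
    rfl
  have hph : ∀ q ∈ Icc 1 Q, ((red K q).card : ℝ) ≤ q := by
    intro q _
    rw [red_card]
    exact_mod_cast ph_le K q
  have t2 : ∑ q ∈ Icc 1 Q, ∑ _r ∈ red K q, R q ^ 2 ≤ 2 * (M : ℝ) ^ 2 * (ρ1 + δ) ^ 2 * (1 + Real.log Q) ^ 64 +
      2 * (Q : ℝ) ^ 2 * ρ2 ^ 2 := by
    have hs := W37.RK.sum_card_pow_div 6 Q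
    have h1 : ∀ q ∈ Icc 1 Q, ∑ _r ∈ red K q, R q ^ 2 ≤
        2 * (M : ℝ) ^ 2 * (ρ1 + δ) ^ 2 * ((q.divisors.card : ℝ) ^ 6 / q) + 2 * Q * ρ2 ^ 2 := by
      intro q hq
      have hq' := mem_Icc.1 hq
      have hq0 : (0 : ℝ) < q := by exact_mod_cast hq'.1
      have hqQ : (q : ℝ) ≤ Q := by exact_mod_cast hq'.2
      rw [sum_const, nsmul_eq_mul]
      have h2 : R q ^ 2 ≤ 2 * ((M : ℝ) / q * ((q.divisors.card : ℝ) ^ 3 * (ρ1 + δ))) ^ 2 + 2 * ρ2 ^ 2 := by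
        rw [hR]
        simp only
        nlinarith [sq_nonneg ((M : ℝ) / q * ((q.divisors.card : ℝ) ^ 3 * (ρ1 + δ)) - ρ2)]
      calc ((red K q).card : ℝ) * R q ^ 2 ≤ q * (2 * ((M : ℝ) / q * ((q.divisors.card : ℝ) ^ 3 * (ρ1 + δ))) ^ 2 + 2 * ρ2 ^ 2) :=
            mul_le_mul (hph q hq) h2 (sq_nonneg _) hq0.le
        _ = 2 * (M : ℝ) ^ 2 * (ρ1 + δ) ^ 2 * ((q.divisors.card : ℝ) ^ 6 / q) + 2 * q * ρ2 ^ 2 := by
            field_simp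
        _ ≤ _ := by
            have : 2 * (q : ℝ) * ρ2 ^ 2 ≤ 2 * Q * ρ2 ^ 2 := by
              apply mul_le_mul_of_nonneg_right _ (sq_nonneg _)
              linarith
            linarith
    refine (sum_le_sum h1).trans ?_
    rw [sum_add_distrib, ← mul_sum, sum_const, Nat.card_Icc, Nat.add_sub_cancel, nsmul_eq_mul]
    have h3 : 2 * (M : ℝ) ^ 2 * (ρ1 + δ) ^ 2 * ∑ q ∈ Icc 1 Q, ((q.divisors.card : ℝ) ^ 6 / q) ≤
        2 * (M : ℝ) ^ 2 * (ρ1 + δ) ^ 2 * (1 + Real.log Q) ^ 64 := by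
      apply mul_le_mul_of_nonneg_left _ (by positivity)
      norm_num at hs
      exact hs
    have e1 : (Q : ℝ) * (2 * Q * ρ2 ^ 2) = 2 * (Q : ℝ) ^ 2 * ρ2 ^ 2 := by ring
    linarith
  have t3 : ∑ q ∈ Icc 1 Q, ∑ _r ∈ red K q, P ^ 2 ≤ (Q : ℝ) ^ 2 * P ^ 2 := by
    calc ∑ q ∈ Icc 1 Q, ∑ _r ∈ red K q, P ^ 2 ≤ ∑ _q ∈ Icc 1 Q, (Q : ℝ) * P ^ 2 := by
          refine sum_le_sum fun q hq => ?_
          rw [sum_const, nsmul_eq_mul]
          apply mul_le_mul_of_nonneg_right _ (sq_nonneg _)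
          refine (hph q hq).trans ?_
          exact_mod_cast (mem_Icc.1 hq).2
      _ = (Q : ℝ) ^ 2 * P ^ 2 := by
          rw [sum_const, Nat.card_Icc, Nat.add_sub_cancel, nsmul_eq_mul]; ring
  have t4 : ∑ q ∈ Icc 1 Q, ∑ _r ∈ red K q, (H / ph K q) ^ 2 * W ≤ H ^ 2 * W * (1 + Real.log Q) ^ 4 := by
    have hs := W37.RK.sum_card_pow_div 2 Q
    have h1 : ∀ q ∈ Icc 1 Q, ∑ _r ∈ red K q, (H / ph K q) ^ 2 * W ≤ H ^ 2 * W * ((q.divisors.card : ℝ) ^ 2 / q) := by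
      intro q hq
      have hq' := mem_Icc.1 hq
      have hq0 : (0 : ℝ) < q := by exact_mod_cast hq'.1
      have hFp := Fq_pos K q
      rw [sum_const, nsmul_eq_mul, red_card, ph_F K q hq'.1]
      have e1 : (q : ℝ) * Fq K q * ((H / (q * Fq K q)) ^ 2 * W) = H ^ 2 * W * (1 / Fq K q / q) := by
        field_simp
      rw [e1]
      apply mul_le_mul_of_nonneg_left _ (by positivity)
      apply div_le_div_of_nonneg_right _ hq0.le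
      have h5 := Fq_ge K q hq'.1
      have hd := dcard_pos q hq'.1
      have hd2 : (0 : ℝ) < (q.divisors.card : ℝ) ^ 2 := by positivity
      rw [div_le_iff₀ hFp]
      rw [div_le_iff₀ hd2] at h5
      linarith
    refine (sum_le_sum h1).trans ?_
    rw [← mul_sum]
    apply mul_le_mul_of_nonneg_left _ (by positivity)
    norm_num at hs
    exact hs
  calc ∑ q ∈ Icc 1 Q, ∑ r ∈ red K q, (thK K (y q r) q r - H / ph K q * y q r) ^ 2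
      ≤ ∑ q ∈ Icc 1 Q, ∑ r ∈ red K q, (4 * (∑ j ∈ range (G + 1), Dj X z G K q r j ^ 2) + 4 * R q ^ 2 + 4 * P ^ 2 +
          4 * ((H / ph K q) ^ 2 * W)) := sum_le_sum fun q hq => sum_le_sum fun r hr => key q hq r hr
    _ = 4 * (∑ q ∈ Icc 1 Q, ∑ r ∈ red K q, ∑ j ∈ range (G + 1), Dj X z G K q r j ^ 2) +
          4 * (∑ q ∈ Icc 1 Q, ∑ _r ∈ red K q, R q ^ 2) + 4 * (∑ q ∈ Icc 1 Q, ∑ _r ∈ red K q, P ^ 2) +
          4 * (∑ q ∈ Icc 1 Q, ∑ _r ∈ red K q, (H / ph K q) ^ 2 * W) := by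
        simp only [sum_add_distrib, mul_sum]
    _ ≤ _ := by linarith

end Pool.Agent.Helper735_BDH
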