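import Pool.Agent.Helper735_BDH.Loc

/-!
One residue class: from the positions of the grid to all positions.
-/

set_option autoImplicit false

namespace Pool.Agent.Helper735_BDH

open Finset Filter
open Pool.Agent.TH892.SW
open Pool.Agent.H373R2.T7 (pz Vz lamz mem_pz Vz_pos Vz_le_one)
open Pool.Agent.R460.SQ (thp ppw vm_split ppw_nn sum_ppw)

/-- the primes `|n² - K|` in a residue class -/
noncomputable def thK (K : ℤ) (y q r : ℕ) : ℝ :=
  ∑ n ∈ (Icc 1 y).filter (fun n => n ≡ r [MOD q]), thp ((n : ℤ) ^ 2 - K).natAbs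

/-- the von Mangoldt function at `|n² - K|` in a residue class -/
noncomputable def psK (K : ℤ) (y q r : ℕ) : ℝ :=
  ∑ n ∈ (Icc 1 y).filter (fun n => n ≡ r [MOD q]), ArithmeticFunction.vonMangoldt ((n : ℤ) ^ 2 - K).natAbs

/-- the model in a residue class -/
noncomputable def mzK (z : ℕ) (K : ℤ) (y q r : ℕ) : ℝ :=
  ∑ n ∈ (Icc 1 y).filter (fun n => n ≡ r [MOD q]), mz z K n

/-- the difference at the position `j` of the grid -/
noncomputable def Dj (X z G : ℕ) (K : ℤ) (q r j : ℕ) : ℝ :=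
  ∑ n ∈ Icc 1 (Nat.sqrt X), cw (Nat.sqrt X) G ⟨q, (r, j)⟩ n * dm z K n

lemma grid_le (M G j : ℕ) (hG : 1 ≤ G) (hj : j ≤ G) : j * M / G ≤ M := by
  apply Nat.div_le_of_le_mul
  exact Nat.mul_le_mul_right M hj

lemma cw_sum (M G q r j : ℕ) (hG : 1 ≤ G) (hj : j ≤ G) (F : ℕ → ℝ) :
    ∑ n ∈ Icc 1 M, cw M G ⟨q, (r, j)⟩ n * F n = ∑ n ∈ (Icc 1 (j * M / G)).filter (fun n => n ≡ r [MOD q]), F n := by
  have h1 : ∀ n ∈ Icc 1 M, cw M G ⟨q, (r, j)⟩ n * F n = if (n ≡ r [MOD q] ∧ n ≤ j * M / G) then F n else 0 := by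
    intro n _
    unfold cw
    split_ifs with h
    · rw [one_mul]
    · rw [zero_mul]
  rw [sum_congr rfl h1, ← sum_filter]
  apply sum_congr _ fun _ _ => rfl
  have h2 := grid_le M G j hG hj
  ext n
  rw [mem_filter, mem_filter, mem_Icc, mem_Icc]
  constructor
  · rintro ⟨⟨a, b⟩, c, d⟩
    exact ⟨⟨a, d⟩, c⟩
  · rintro ⟨⟨a, b⟩, c⟩
    exact ⟨⟨a, by omega⟩, c, b⟩

lemma Dj_eq (X z G : ℕ) (K : ℤ) (q r j : ℕ) (hG : 1 ≤ G) (hj : j ≤ G) :
    Dj X z G K q r j = psK K (j * Nat.sqrt X / G) q r - mzK z K (j * Nat.sqrt X / G) q r := by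
  unfold Dj psK mzK
  rw [cw_sum _ _ _ _ _ hG hj, ← sum_sub_distrib]
  rfl

lemma thp_nn (l : ℕ) : 0 ≤ thp l := by
  unfold thp
  split_ifs
  · exact Real.log_natCast_nonneg _
  · exact le_rfl

lemma thK_mono (K : ℤ) (y y' q r : ℕ) (h : y ≤ y') : thK K y q r ≤ thK K y' q r := by
  unfold thK
  apply sum_le_sum_of_subset_of_nonneg
  · apply filter_subset_filter
    exact Icc_subset_Icc le_rfl h
  · intro _ _ _; exact thp_nn _

lemma thK_le_psK (K : ℤ) (y q r : ℕ) : thK K y q r ≤ psK K y q r := by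
  unfold thK psK
  refine sum_le_sum fun n _ => ?_
  have h1 := vm_split ((n : ℤ) ^ 2 - K).natAbs
  have h2 := ppw_nn ((n : ℤ) ^ 2 - K).natAbs
  linarith

lemma psK_le (X : ℕ) (K : ℤ) (y q r : ℕ) (hy : y ≤ Nat.sqrt X) : psK K y q r ≤ thK K y q r + PPK X K := by
  have h1 : psK K y q r = thK K y q r + ∑ n ∈ (Icc 1 y).filter (fun n => n ≡ r [MOD q]), ppw ((n : ℤ) ^ 2 - K).natAbs := by
    unfold thK psK
    rw [← sum_add_distrib]
    exact sum_congr rfl fun n _ => vm_split _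
  have h2 : ∑ n ∈ (Icc 1 y).filter (fun n => n ≡ r [MOD q]), ppw ((n : ℤ) ^ 2 - K).natAbs ≤ PPK X K := by
    unfold PPK
    apply sum_le_sum_of_subset_of_nonneg
    · intro n hn
      rw [mem_filter, mem_Icc] at hn
      rw [mem_Icc]
      omega
    · intro _ _ _; exact ppw_nn _
  linarith

lemma one_class (X z G q r y : ℕ) (K : ℤ) (μ R P : ℝ) (hM : 1 ≤ Nat.sqrt X) (hG : 1 ≤ G) (hμ : 0 ≤ μ)
    (hy : y ≤ Nat.sqrt X) (hR : ∀ y' : ℕ, y' ≤ Nat.sqrt X → |mzK z K y' q r - μ * y'| ≤ R) (hP : PPK X K ≤ P)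
    (hP0 : 0 ≤ P) :
    ∃ j ∈ range (G + 1), |thK K y q r - μ * y| ≤ |Dj X z G K q r j| + R + P + μ * ((Nat.sqrt X : ℝ) / G + 1) := by
  set M := Nat.sqrt X with hMd
  have hM0 : (0 : ℝ) < M := by exact_mod_cast hM
  have hG0 : (0 : ℝ) < G := by exact_mod_cast hG
  obtain ⟨j0, hj0⟩ : ∃ j0 : ℕ, j0 = y * G / M := ⟨_, rfl⟩
  have a1 : j0 * M ≤ y * G := by rw [hj0]; exact Nat.div_mul_le_self _ _
  have a2 : y * G < (j0 + 1) * M := by
    rw [hj0]
    have := Nat.lt_div_mul_add (a := y * G) (b := M) (by omega)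
    have h7 : (y * G / M + 1) * M = y * G / M * M + M := by ring
    omega
  have hj0G : j0 ≤ G := by
    by_contra hc
    have h1 : (G + 1) * M ≤ j0 * M := Nat.mul_le_mul_right M (by omega)
    have h2 : y * G ≤ M * G := Nat.mul_le_mul_right G hy
    have h3 : (G + 1) * M = M * G + M := by ring
    omega
  have a1r : (j0 : ℝ) * M ≤ y * G := by exact_mod_cast a1
  have a2r : (y : ℝ) * G < (j0 + 1) * M := by exact_mod_cast a2
  -- lower grid point
  obtain ⟨y0, hy0⟩ : ∃ y0 : ℕ, y0 = j0 * M / G := ⟨_, rfl⟩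
  have b1 : y0 ≤ y := by
    rw [hy0]
    apply Nat.div_le_of_le_mul
    calc j0 * M ≤ y * G := a1
      _ = G * y := mul_comm _ _
  have b2 : (y : ℝ) - y0 ≤ M / G + 1 := by
    have h1 : j0 * M < (y0 + 1) * G := by
      rw [hy0]
      have := Nat.lt_div_mul_add (a := j0 * M) (b := G) (by omega)
      have h7 : (j0 * M / G + 1) * G = j0 * M / G * G + G := by ring
      omega
    have h2 : (j0 : ℝ) * M < (y0 + 1) * G := by exact_mod_cast h1
    have h3 : (y : ℝ) - y0 - 1 ≤ M / G := by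
      rw [le_div_iff₀ hG0]
      nlinarith
    linarith
  rcases le_total 0 (thK K y q r - μ * y) with hs | hs
  · -- use the upper grid point
    obtain ⟨j1, hj1G, c1, c2⟩ : ∃ j1 : ℕ, j1 ≤ G ∧ y ≤ j1 * M / G ∧ ((j1 * M / G : ℕ) : ℝ) - y ≤ M / G + 1 := by
      rcases Nat.lt_or_ge j0 G with h | h
      · refine ⟨j0 + 1, h, ?_, ?_⟩
        · rw [Nat.le_div_iff_mul_le (by omega)]
          exact a2.le
        · have h1 : (((j0 + 1) * M / G : ℕ) : ℝ) ≤ ((j0 : ℝ) + 1) * M / G := by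
            have := Nat.cast_div_le (α := ℝ) (m := (j0 + 1) * M) (n := G)
            push_cast at this
            exact this
          have h2 : ((j0 : ℝ) + 1) * M / G ≤ y + M / G := by
            rw [div_le_iff₀ hG0, add_mul (y : ℝ), div_mul_cancel₀ _ hG0.ne']
            linarith
          linarith
      · have h1 : j0 = G := by omega
        have h2 : M ≤ y := by
          rw [h1] at a1
          have h3 : M * G ≤ y * G := by rw [mul_comm M G]; exact a1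
          exact Nat.le_of_mul_le_mul_right h3 (by omega)
        have h3 : y = M := by omega
        refine ⟨G, le_rfl, ?_, ?_⟩
        · rw [Nat.mul_div_cancel_left _ (by omega)]
          omega
        · rw [Nat.mul_div_cancel_left _ (by omega), h3, sub_self]
          positivity
    refine ⟨j1, mem_range.2 (by omega), ?_⟩
    rw [abs_of_nonneg hs]
    have d1 := thK_mono K y (j1 * M / G) q r c1
    have d2 := thK_le_psK K (j1 * M / G) q r
    have d3 := Dj_eq X z G K q r j1 hG hj1G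
    rw [← hMd] at d3
    have d4 := (abs_le.1 (hR (j1 * M / G) (grid_le M G j1 hG hj1G))).2
    have d5 := le_abs_self (Dj X z G K q r j1)
    have d6 : μ * (((j1 * M / G : ℕ) : ℝ) - y) ≤ μ * (M / G + 1) := mul_le_mul_of_nonneg_left c2 hμ
    linarith
  · refine ⟨j0, mem_range.2 (by omega), ?_⟩
    rw [abs_of_nonpos hs]
    have d1 := thK_mono K y0 y q r b1
    have hgl := grid_le M G j0 hG hj0G
    rw [← hy0] at hgl
    have d2 := psK_le X K y0 q r (by rw [← hMd]; exact hgl)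
    have d3 := Dj_eq X z G K q r j0 hG hj0G
    rw [← hMd, ← hy0] at d3
    have d4 := (abs_le.1 (hR y0 hgl)).1
    have d5 := neg_abs_le (Dj X z G K q r j0)
    have d6 : μ * ((y : ℝ) - y0) ≤ μ * (M / G + 1) := mul_le_mul_of_nonneg_left b2 hμ
    linarith

/-- the squares -/
lemma one_class_sq (X z G q r y : ℕ) (K : ℤ) (μ R P : ℝ) (hM : 1 ≤ Nat.sqrt X) (hG : 1 ≤ G) (hμ : 0 ≤ μ)
    (hy : y ≤ Nat.sqrt X) (hR : ∀ y' : ℕ, y' ≤ Nat.sqrt X → |mzK z K y' q r - μ * y'| ≤ R) (hP : PPK X K ≤ P)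
    (hP0 : 0 ≤ P) :
    (thK K y q r - μ * y) ^ 2 ≤ 4 * (∑ j ∈ range (G + 1), Dj X z G K q r j ^ 2) + 4 * R ^ 2 + 4 * P ^ 2 +
      4 * (μ ^ 2 * ((Nat.sqrt X : ℝ) / G + 1) ^ 2) := by
  obtain ⟨j, hj, h⟩ := one_class X z G q r y K μ R P hM hG hμ hy hR hP hP0
  have h1 : Dj X z G K q r j ^ 2 ≤ ∑ j ∈ range (G + 1), Dj X z G K q r j ^ 2 :=
    single_le_sum (f := fun j => Dj X z G K q r j ^ 2) (fun _ _ => sq_nonneg _) hj
  have h2 : (thK K y q r - μ * y) ^ 2 ≤ (|Dj X z G K q r j| + R + P + μ * ((Nat.sqrt X : ℝ) / G + 1)) ^ 2 := by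
    rw [← sq_abs (thK K y q r - μ * y)]
    exact pow_le_pow_left₀ (abs_nonneg _) h 2
  have h3 : |Dj X z G K q r j| ^ 2 = Dj X z G K q r j ^ 2 := sq_abs _
  set a := |Dj X z G K q r j|
  set d := μ * ((Nat.sqrt X : ℝ) / G + 1) with hd
  have h4 : (a + R + P + d) ^ 2 ≤ 4 * a ^ 2 + 4 * R ^ 2 + 4 * P ^ 2 + 4 * d ^ 2 := by
    nlinarith [sq_nonneg (a - R), sq_nonneg (a - P), sq_nonneg (a - d), sq_nonneg (R - P), sq_nonneg (R - d), sq_nonneg (P - d)]
  have h5 : d ^ 2 = μ ^ 2 * ((Nat.sqrt X : ℝ) / G + 1) ^ 2 := by rw [hd]; ring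
  linarith

end Pool.Agent.Helper735_BDH
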