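import Pool.Agent.Helper735_BDH.Det
import Pool.Agent.Results.MP_391708_nt.FullConstantInClasses

/-!
The parameters and the final theorem.
-/

set_option autoImplicit false

namespace Pool.Agent.Helper735_BDH

open Finset Filter
open Pool.Agent.TH892.SW
open Pool.Agent.H373R2.T7 (pz Vz lamz mem_pz Vz_pos Vz_le_one Vz_inv_small)
open Pool.Agent.R460.SQ (thp ppw vm_split ppw_nn sum_ppw)

lemma ev_log_sq (c : ℕ) : ∃ X0 : ℕ, ∀ X : ℕ, X0 ≤ X → (c : ℝ) * Real.log (Real.log X) ^ 2 ≤ Real.log X / 2 := by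
  have h1 : (fun x : ℝ => Real.log x ^ 2) =o[atTop] id := Real.isLittleO_pow_log_id_atTop
  have h2 := h1.def (c := 1 / (2 * ((c : ℝ) + 1))) (by positivity)
  have h3 := (Real.tendsto_log_atTop.comp tendsto_natCast_atTop_atTop).eventually (h2.and (eventually_ge_atTop 1))
  obtain ⟨X0, h0⟩ := eventually_atTop.1 h3
  refine ⟨X0, fun X hX => ?_⟩
  have h4 := h0 X hX
  simp only [Function.comp_apply, id, Real.norm_eq_abs, abs_pow, sq_abs] at h4
  obtain ⟨h5, h6⟩ := h4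
  rw [abs_of_nonneg (by linarith)] at h5
  have hc : (0 : ℝ) ≤ c := Nat.cast_nonneg _
  calc (c : ℝ) * Real.log (Real.log X) ^ 2 ≤ c * (1 / (2 * ((c : ℝ) + 1)) * Real.log X) :=
        mul_le_mul_of_nonneg_left h5 hc
    _ = (c / (c + 1)) * (Real.log X / 2) := by field_simp
    _ ≤ 1 * (Real.log X / 2) := by
        apply mul_le_mul_of_nonneg_right _ (by linarith)
        rw [div_le_one (by positivity)]
        linarith
    _ = _ := one_mul _

lemma S2_mono (X z Q Q' G : ℕ) (K : ℤ) (h : Q ≤ Q') : S2 X z Q G K ≤ S2 X z Q' G K := by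
  unfold S2
  apply sum_le_sum_of_subset_of_nonneg
  · unfold Om
    apply sigma_mono (Icc_subset_Icc le_rfl h)
    intro _; rfl
  · intro _ _ _; exact sq_nonneg _

lemma S2_nn (X z Q G : ℕ) (K : ℤ) : 0 ≤ S2 X z Q G K := sum_nonneg fun _ _ => sq_nonneg _

lemma Dj_le_S2 (X z G Q : ℕ) (K : ℤ) (hQ : 1 ≤ Q) : Dj X z G K 1 0 G ^ 2 ≤ S2 X z Q G K := by
  unfold S2
  have h1 : (⟨1, (0, G)⟩ : Σ _ : ℕ, ℕ × ℕ) ∈ Om Q G := by
    unfold Om
    rw [mem_sigma, mem_Icc, mem_product, mem_range, mem_range]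
    exact ⟨⟨le_rfl, hQ⟩, by norm_num, by simp⟩
  exact single_le_sum (f := fun ω => (∑ n ∈ Icc 1 (Nat.sqrt X), cw (Nat.sqrt X) G ω n * dm z K n) ^ 2)
    (fun _ _ => sq_nonneg _) h1

lemma pow_exp (L : ℝ) (hL : 0 < L) (n : ℕ) : L ^ n = Real.exp (n * Real.log L) := by
  rw [mul_comm, ← Real.rpow_def_of_pos hL, Real.rpow_natCast]

lemma u2_num (A : ℕ) (X L M σ lq : ℝ) (hX0 : 0 < X) (hL1 : 1 ≤ L) (hM0 : 0 ≤ M) (hMX : M ≤ √X)
    (hσ0 : 0 ≤ σ) (hσ : σ ≤ 2 / L ^ (A + 47)) (hl0 : 0 ≤ lq) (hl : lq ≤ 2 * L) :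
    8 * M ^ 2 * σ ^ 2 * lq ^ 64 ≤ 2 ^ 69 * (X / L ^ (A + 7)) := by
  have hL0 : 0 < L := by linarith
  have h2 : M ^ 2 ≤ X := by
    calc M ^ 2 ≤ (√X) ^ 2 := pow_le_pow_left₀ hM0 hMX 2
      _ = X := Real.sq_sqrt hX0.le
  calc 8 * M ^ 2 * σ ^ 2 * lq ^ 64 ≤ 8 * X * (2 / L ^ (A + 47)) ^ 2 * (2 * L) ^ 64 := by
        gcongr
    _ = 2 ^ 69 * (X * L ^ 64 / (L ^ (A + 47)) ^ 2) := by
        rw [mul_pow 2 L 64, div_pow]
        ring
    _ ≤ 2 ^ 69 * (X / L ^ (A + 7)) := by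
        apply mul_le_mul_of_nonneg_left _ (by norm_num)
        rw [div_le_div_iff₀ (by positivity) (by positivity), mul_assoc]
        apply mul_le_mul_of_nonneg_left _ hX0.le
        rw [← pow_mul, ← pow_add]
        exact pow_le_pow_right₀ hL1 (by omega)

lemma u5_num (A : ℕ) (X L W H lq : ℝ) (hX0 : 0 < X) (hL1 : 1 ≤ L) (hW0 : 0 ≤ W)
    (hW : W ≤ 3 * √X / L ^ (A + 10)) (hH0 : 0 ≤ H) (hH : H ≤ 2 * L) (hl0 : 0 ≤ lq) (hl : lq ≤ 2 * L) :
    4 * (H ^ 2 * W ^ 2 * lq ^ 4) ≤ 2304 * (X / L ^ (A + 7)) := by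
  have hL0 : 0 < L := by linarith
  calc 4 * (H ^ 2 * W ^ 2 * lq ^ 4) ≤ 4 * ((2 * L) ^ 2 * (3 * √X / L ^ (A + 10)) ^ 2 * (2 * L) ^ 4) := by gcongr
    _ = 2304 * ((√X) ^ 2 * L ^ 6 / (L ^ (A + 10)) ^ 2) := by
        rw [div_pow]
        ring
    _ ≤ 2304 * (X / L ^ (A + 7)) := by
        apply mul_le_mul_of_nonneg_left _ (by norm_num)
        rw [Real.sq_sqrt hX0.le]
        rw [div_le_div_iff₀ (by positivity) (by positivity), mul_assoc]
        apply mul_le_mul_of_nonneg_left _ hX0.le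
        rw [← pow_mul, ← pow_add]
        exact pow_le_pow_right₀ hL1 (by omega)

lemma uQ_num (A : ℕ) (X L ℓ2 c Q W : ℝ) (hX0 : 0 < X) (hL1 : 1 ≤ L) (hℓ : 0 ≤ ℓ2)
    (hLe2 : ∀ n : ℕ, L ^ n ≤ Real.exp (n * ℓ2)) (hQ0 : 0 ≤ Q) (hQ : Q ≤ √X * Real.exp (-((c + 2 * A + 100) * ℓ2)))
    (hW0 : 0 ≤ W) (hW : W ≤ Real.exp ((c + A + 10) * ℓ2)) : Q ^ 2 * W ^ 2 ≤ X / L ^ (A + 7) := by
  have hL0 : 0 < L := by linarith
  have hsX0 : 0 ≤ √X := Real.sqrt_nonneg _
  have h1 : Q * W ≤ √X * Real.exp (-(((A + 7 : ℕ) : ℝ) * ℓ2)) := by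
    calc Q * W ≤ (√X * Real.exp (-((c + 2 * A + 100) * ℓ2))) * Real.exp ((c + A + 10) * ℓ2) :=
          mul_le_mul hQ hW hW0 (by positivity)
      _ = √X * Real.exp (-(((A : ℝ) + 90) * ℓ2)) := by
          rw [mul_assoc, ← Real.exp_add]
          congr 2
          ring
      _ ≤ _ := by
          apply mul_le_mul_of_nonneg_left _ hsX0
          apply Real.exp_le_exp.2
          push_cast
          nlinarith
  have h2 : Real.exp (-(((A + 7 : ℕ) : ℝ) * ℓ2)) ≤ 1 / L ^ (A + 7) := by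
    rw [Real.exp_neg, ← one_div]
    exact one_div_le_one_div_of_le (by positivity) (hLe2 _)
  have h3 : Q * W ≤ √X * (1 / L ^ (A + 7)) := h1.trans (mul_le_mul_of_nonneg_left h2 hsX0)
  calc Q ^ 2 * W ^ 2 = (Q * W) ^ 2 := by ring
    _ ≤ (√X * (1 / L ^ (A + 7))) ^ 2 := pow_le_pow_left₀ (by positivity) h3 2
    _ = X / L ^ (A + 7) * (1 / L ^ (A + 7)) := by
        rw [mul_pow, Real.sq_sqrt hX0.le]
        ring
    _ ≤ X / L ^ (A + 7) * 1 := by
        apply mul_le_mul_of_nonneg_left _ (by positivity)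
        rw [div_le_one (by positivity)]
        exact one_le_pow₀ hL1
    _ = _ := mul_one _

lemma fin_num (A : ℕ) (X L H : ℝ) (hX0 : 0 < X) (hL : 2 ^ 72 ≤ L) (hH : 1 / L ^ 3 ≤ H) (t1 t2 t3 t4 t5 : ℝ)
    (h1 : t1 ≤ 4 * (X / L ^ (A + 7))) (h2 : t2 ≤ 2 ^ 69 * (X / L ^ (A + 7))) (h3 : t3 ≤ 8 * (X / L ^ (A + 7)))
    (h4 : t4 ≤ 4 * (X / L ^ (A + 7))) (h5 : t5 ≤ 2304 * (X / L ^ (A + 7))) :
    t1 + t2 + t3 + t4 + t5 ≤ H ^ 2 * X / L ^ A := by
  have hL0 : 0 < L := by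
    have : (0 : ℝ) < 2 ^ 72 := by norm_num
    linarith
  have hfin : 2 ^ 70 * (X / L ^ (A + 7)) ≤ H ^ 2 * X / L ^ A := by
    have h1 : (1 / L ^ 3) ^ 2 ≤ H ^ 2 := pow_le_pow_left₀ (by positivity) hH 2
    calc 2 ^ 70 * (X / L ^ (A + 7)) ≤ L * (X / L ^ (A + 7)) := by
          apply mul_le_mul_of_nonneg_right _ (by positivity)
          have : (2 : ℝ) ^ 70 ≤ 2 ^ 72 := by norm_num
          linarith
      _ = (1 / L ^ 3) ^ 2 * X / L ^ A := by
          rw [pow_add L A 7]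
          field_simp
      _ ≤ _ := by
          apply div_le_div_of_nonneg_right _ (by positivity)
          exact mul_le_mul_of_nonneg_right h1 hX0.le
  have hpos : 0 ≤ X / L ^ (A + 7) := by positivity
  have hnum : (4 + 2 ^ 69 + 8 + 4 + 2304) * (X / L ^ (A + 7)) ≤ 2 ^ 70 * (X / L ^ (A + 7)) :=
    mul_le_mul_of_nonneg_right (by norm_num) hpos
  linarith

theorem detK (A E : ℕ) (hE : A + 60 ≤ E) : ∃ Bd X0 : ℕ, ∀ X : ℕ, X0 ≤ X → ∀ z : ℕ, (z : ℝ) ≤ Real.log X ^ E →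
    Real.log X ^ E / 2 ≤ z → ∀ G : ℕ, Real.log X ^ (A + 10) / 2 ≤ G →
    ∀ (Q0 : ℕ) (K : ℤ) (H : ℝ), 1 ≤ Q0 → S2 X z Q0 G K ≤ X / Real.log X ^ (2 * (A + 49)) →
    PPK X K ≤ Real.log X ^ (A + 3) →
    |thK K (Nat.sqrt X) 1 0 - H * (Nat.sqrt X : ℕ)| ≤ √X / Real.log X ^ (A + 49) →
    0 < H ∧ ∀ Q : ℕ, Q ≤ Q0 → (Q : ℝ) ≤ √X * Real.exp (-(Bd * Real.log (Real.log X) ^ 2)) →
      ∀ y : ℕ → ℕ → ℕ, (∀ q r, y q r ≤ Nat.sqrt X) →
      ∑ q ∈ Icc 1 Q, ∑ r ∈ red K q, (thK K (y q r) q r - H / ph K q * y q r) ^ 2 ≤ H ^ 2 * X / Real.log X ^ A := by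
  obtain ⟨C1, z0, hC1, hz0, hflc⟩ := flc
  obtain ⟨c2, hc2⟩ : ∃ c2 : ℕ, c2 = 3 * (A + 51) * E * C1 := ⟨_, rfl⟩
  obtain ⟨N1, hN1⟩ := Vz_inv_small E
  obtain ⟨N2, hN2⟩ := ev_log_ge ((2 : ℝ) ^ 72)
  obtain ⟨N3, hN3⟩ := ev_log_sq (c2 + 2 * A + 100)
  obtain ⟨N4, hN4⟩ := ev_log_ge ((z0 : ℝ) * 2)
  obtain ⟨N5, hN5⟩ := ev_log_ge (Real.exp C1)
  refine ⟨c2 + 2 * A + 100, N1 + N2 + N3 + N4 + N5 + 16, fun X hX z hz1 hz2 G hG Q0 K H hQ0 hS hP hth => ?_⟩
  set L := Real.log X with hL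
  set M := Nat.sqrt X with hM
  have hLb : (2 : ℝ) ^ 72 ≤ L := hN2 X (by omega)
  have hL8 : (1000 : ℝ) ≤ L := by
    have : (1000 : ℝ) ≤ 2 ^ 72 := by norm_num
    exact this.trans hLb
  have hL0 : 0 < L := by linarith only [hL8]
  have hL1 : 1 ≤ L := by linarith only [hL8]
  have hX1 : (16 : ℝ) ≤ X := by exact_mod_cast (by omega : 16 ≤ X)
  have hX0 : (0 : ℝ) < X := by linarith only [hX1]
  set ℓ := Real.log L with hℓ
  have hℓ1 : 1 ≤ ℓ := by
    rw [hℓ, Real.le_log_iff_exp_le hL0]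
    have := Real.exp_one_lt_d9
    linarith only [this, hL8]
  have hℓ2 : ℓ ≤ ℓ ^ 2 := by nlinarith only [hℓ1]
  have hℓC : (C1 : ℝ) ≤ ℓ := by
    rw [hℓ, Real.le_log_iff_exp_le hL0]
    exact hN5 X (by omega)
  have hc3 : ((c2 : ℝ) + 2 * A + 100) * ℓ ^ 2 ≤ L / 2 := by
    have := hN3 X (by omega)
    push_cast at this
    exact this
  have hLe : ∀ n : ℕ, L ^ n = Real.exp (n * ℓ) := fun n => pow_exp L hL0 n
  have hLe2 : ∀ n : ℕ, L ^ n ≤ Real.exp (n * ℓ ^ 2) := by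
    intro n
    rw [hLe]
    apply Real.exp_le_exp.2
    exact mul_le_mul_of_nonneg_left hℓ2 (Nat.cast_nonneg _)
  have hsX : √(X : ℝ) = Real.exp (L / 2) := by
    rw [Real.sqrt_eq_rpow, Real.rpow_def_of_pos hX0]
    congr 1
    rw [hL]; ring
  have hsX0 : 0 < √(X : ℝ) := by rw [hsX]; exact Real.exp_pos _
  have hsq : √(X : ℝ) * √(X : ℝ) = X := Real.mul_self_sqrt hX0.le
  -- M
  have hMX : (M : ℝ) ≤ √X := by
    apply Real.le_sqrt_of_sq_le
    exact_mod_cast Nat.sqrt_le' X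
  have hM2 : √(X : ℝ) / 2 ≤ M := by
    have h1 : (X : ℝ) < ((M : ℝ) + 1) ^ 2 := by
      have := Nat.lt_succ_sqrt' X
      exact_mod_cast this
    have h2 : √(X : ℝ) < M + 1 := by
      rw [Real.sqrt_lt' (by positivity)]
      exact h1
    have h3 : (4 : ℝ) ≤ √X := by
      apply Real.le_sqrt_of_sq_le
      linarith only [hX1]
    linarith only [h2, h3]
  have hM0 : (0 : ℝ) < M := by linarith only [hM2, hsX0]
  have hM1 : 1 ≤ M := by
    have : 0 < M := by exact_mod_cast hM0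
    omega
  -- z
  have hLE : L ≤ L ^ E := by
    calc L = L ^ 1 := (pow_one _).symm
      _ ≤ L ^ E := pow_le_pow_right₀ hL1 (by omega)
  have hzr : (z0 : ℝ) ≤ z := by
    have h1 := hN4 X (by omega)
    have h2 : (z0 : ℝ) * 2 ≤ L ^ E := h1.trans hLE
    linarith only [h2, hz2]
  have hzz0 : z0 ≤ z := by exact_mod_cast hzr
  have hz2' : 2 ≤ z := by omega
  have hzpos : (0 : ℝ) < z := by exact_mod_cast (by omega : 0 < z)
  have hz1r : (1 : ℝ) ≤ z := by exact_mod_cast (by omega : 1 ≤ z)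
  have hV0 := Vz_pos z
  set V := (Vz z)⁻¹ with hV
  have hVp : 0 < V := by positivity
  have hVL : V ≤ L := hN1 X (by omega) z (by omega) hz1
  -- b
  obtain ⟨b, hb⟩ : ∃ b : ℕ, b = ⌈2 * ((A : ℝ) + 51) * ℓ⌉₊ := ⟨_, rfl⟩
  have hA0 : (0 : ℝ) ≤ A := Nat.cast_nonneg _
  have hb1 : 2 * ((A : ℝ) + 51) * ℓ ≤ b := by rw [hb]; exact Nat.le_ceil _
  have hb2 : (b : ℝ) ≤ 3 * ((A : ℝ) + 51) * ℓ := by
    have h1 : (b : ℝ) < 2 * ((A : ℝ) + 51) * ℓ + 1 := by
      rw [hb]; exact Nat.ceil_lt_add_one (by positivity)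
    have h2 : 1 * 1 ≤ ((A : ℝ) + 51) * ℓ := mul_le_mul (by linarith only [hA0]) hℓ1 (by norm_num) (by positivity)
    linarith only [h1, h2]
  have hbC : C1 ≤ b := by
    have h2 : 1 * ℓ ≤ (2 * ((A : ℝ) + 51)) * ℓ := mul_le_mul_of_nonneg_right (by linarith only [hA0]) (by linarith only [hℓ1])
    have : (C1 : ℝ) ≤ b := by linarith only [h2, hb1, hℓC]
    exact_mod_cast this
  have hhalf : (1 / 2 : ℝ) ^ b ≤ 1 / L ^ (A + 51) := by
    have h1 : (1 / 2 : ℝ) ^ b = Real.exp (-(b * Real.log 2)) := by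
      rw [pow_exp (1 / 2) (by norm_num) b]
      congr 1
      rw [one_div, Real.log_inv]
      ring
    rw [h1, hLe, one_div, ← Real.exp_neg]
    apply Real.exp_le_exp.2
    have h2 := Real.log_two_gt_d9
    push_cast
    have h3 : 2 * ((A : ℝ) + 51) * ℓ * (1 / 2) ≤ b * Real.log 2 := by
      apply mul_le_mul hb1 _ (by norm_num) (Nat.cast_nonneg _)
      linarith only [h2]
    linarith only [h3]
  have hzC : (z : ℝ) ^ (C1 * b) ≤ Real.exp (c2 * ℓ ^ 2) := by
    calc (z : ℝ) ^ (C1 * b) ≤ (L ^ E) ^ (C1 * b) := pow_le_pow_left₀ hzpos.le hz1 _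
      _ = Real.exp (E * C1 * b * ℓ) := by
          rw [← pow_mul, hLe]
          congr 1
          push_cast
          ring
      _ ≤ Real.exp (c2 * ℓ ^ 2) := by
          apply Real.exp_le_exp.2
          rw [hc2]
          push_cast
          have h1 : (E : ℝ) * C1 * b * ℓ ≤ E * C1 * (3 * ((A : ℝ) + 51) * ℓ) * ℓ := by gcongr
          linarith only [h1]
  set ρ1 := V * (1 / 2 : ℝ) ^ b with hρ1
  set ρ2 := V * (z : ℝ) ^ (C1 * b) with hρ2
  have hρ10 : 0 ≤ ρ1 := by positivity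
  have hρ20 : 0 ≤ ρ2 := by positivity
  have hρ1b : ρ1 ≤ 1 / L ^ (A + 50) := by
    calc ρ1 ≤ L * (1 / L ^ (A + 51)) := mul_le_mul hVL hhalf (by positivity) hL0.le
      _ = 1 / L ^ (A + 50) := by
          rw [pow_succ L (A + 50)]
          field_simp
  have hρ2b : ρ2 ≤ Real.exp ((c2 + 1) * ℓ ^ 2) := by
    calc ρ2 ≤ L * Real.exp (c2 * ℓ ^ 2) := mul_le_mul hVL hzC (by positivity) hL0.le
      _ ≤ Real.exp (1 * ℓ ^ 2) * Real.exp (c2 * ℓ ^ 2) := by
          apply mul_le_mul_of_nonneg_right _ (Real.exp_pos _).le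
          have := hLe2 1
          rw [pow_one, Nat.cast_one] at this
          exact this
      _ = _ := by rw [← Real.exp_add]; congr 1; ring
  -- the model in the classes
  have hfl : ∀ q r y : ℕ, 1 ≤ q → r < q → Int.gcd ((r : ℤ) ^ 2 - K) q = 1 →
      |mzK z K y q r - V * ((y : ℝ) / q * Gq z q K)| ≤ ρ1 * ((y : ℝ) / q) + ρ2 := by
    intro q r y hq hr hg
    have h1 := hflc b hbC z hzz0 q r y K hq hr hg
    refine le_trans ?_ (h1.trans (le_of_eq ?_))
    · apply le_of_eq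
      rfl
    · rw [hρ1, hρ2]; ring
  -- the constant
  have hHP0 := HP_nonneg K z
  have hHPV : HP K z ≤ V := HP_le K z
  have hP49 : PPK X K ≤ √X / L ^ (A + 49) := by
    refine hP.trans ?_
    rw [le_div_iff₀ (by positivity), ← pow_add, hsX]
    refine (hLe2 _).trans ?_
    apply Real.exp_le_exp.2
    refine le_trans ?_ hc3
    apply mul_le_mul_of_nonneg_right _ (sq_nonneg _)
    push_cast
    have : (0 : ℝ) ≤ c2 := Nat.cast_nonneg _
    linarith only [this, hA0]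
  have hρ49 : ρ2 ≤ √X / L ^ (A + 49) := by
    rw [le_div_iff₀ (by positivity), hsX]
    calc ρ2 * L ^ (A + 49) ≤ Real.exp ((c2 + 1) * ℓ ^ 2) * Real.exp (((A + 49 : ℕ) : ℝ) * ℓ ^ 2) :=
          mul_le_mul hρ2b (hLe2 _) (by positivity) (Real.exp_pos _).le
      _ = Real.exp (((c2 : ℝ) + A + 50) * ℓ ^ 2) := by
          rw [← Real.exp_add]; congr 1; push_cast; ring
      _ ≤ _ := by
          apply Real.exp_le_exp.2
          refine le_trans ?_ hc3
          apply mul_le_mul_of_nonneg_right _ (sq_nonneg _)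
          linarith only [hA0]
  have hGpos : (0 : ℝ) < G := by
    have : 0 < L ^ (A + 10) / 2 := by positivity
    exact this.trans_le hG
  have hG1 : 1 ≤ G := by
    have : 0 < G := by exact_mod_cast hGpos
    omega
  have hdiff : |HP K z - H| ≤ 1 / L ^ (A + 48) := by
    have hD1 : |Dj X z G K 1 0 G| ≤ √X / L ^ (A + 49) := by
      apply abs_le_of_sq_le_sq _ (by positivity)
      refine (Dj_le_S2 X z G Q0 K hQ0).trans (hS.trans (le_of_eq ?_))
      rw [div_pow, Real.sq_sqrt hX0.le, ← pow_mul]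
      congr 2
      ring
    have hD2 := Dj_eq X z G K 1 0 G hG1 le_rfl
    rw [← hM, Nat.mul_div_cancel_left _ (by omega)] at hD2
    have hf1 := hfl 1 0 M le_rfl (by norm_num) (by simp)
    have hGq : V * Gq z 1 K = HP K z := by
      have h1 := Gq_mul z 1 K
      have h2 : (pz z).filter (fun p => p ∣ 1) = ∅ := by
        rw [filter_eq_empty_iff]
        intro p hp hd
        exact (mem_pz.1 hp).2.one_lt.ne' (Nat.dvd_one.1 hd)
      rw [h2, prod_empty, one_mul] at h1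
      rw [h1, hV, ← mul_assoc, inv_mul_cancel₀ hV0.ne', one_mul]
    have e1 : V * ((M : ℝ) / (1 : ℕ) * Gq z 1 K) = HP K z * M := by
      rw [← hGq, Nat.cast_one, div_one]; ring
    rw [e1, Nat.cast_one, div_one] at hf1
    have h3 := thK_le_psK K M 1 0
    have h4 := psK_le X K M 1 0 le_rfl
    have h5 : |(HP K z - H) * M| ≤ 5 * (√X / L ^ (A + 49)) := by
      have e2 : (HP K z - H) * M = -(mzK z K M 1 0 - HP K z * M) - Dj X z G K 1 0 G + (psK K M 1 0 - thK K M 1 0) +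
          (thK K M 1 0 - H * M) := by
        rw [hD2]; ring
      have h6 : ρ1 * M ≤ √X / L ^ (A + 49) := by
        calc ρ1 * M ≤ 1 / L ^ (A + 50) * √X := mul_le_mul hρ1b hMX hM0.le (by positivity)
          _ ≤ 1 / L ^ (A + 49) * √X := by
              apply mul_le_mul_of_nonneg_right _ hsX0.le
              apply one_div_le_one_div_of_le (by positivity)
              exact pow_le_pow_right₀ hL1 (by omega)
          _ = _ := by ring
      have a1 := abs_le.1 hf1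
      have a2 := abs_le.1 hD1
      have a3 := abs_le.1 hth
      rw [e2, abs_le]
      constructor <;> linarith only [a1.1, a1.2, a2.1, a2.2, a3.1, a3.2, h3, h4, h6, hρ49, hP49]
    rw [abs_mul, abs_of_pos hM0] at h5
    have h6 : |HP K z - H| * (√X / 2) ≤ 5 * (√X / L ^ (A + 49)) :=
      (mul_le_mul_of_nonneg_left hM2 (abs_nonneg _)).trans h5
    have h7 : |HP K z - H| ≤ 10 / L ^ (A + 49) := by
      have h8 : 5 * (√X / L ^ (A + 49)) = 10 / L ^ (A + 49) * (√X / 2) := by ring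
      rw [h8] at h6
      exact le_of_mul_le_mul_right h6 (by positivity)
    refine h7.trans ?_
    rw [div_le_div_iff₀ (by positivity) (by positivity), pow_succ L (A + 48), one_mul, mul_comm]
    exact mul_le_mul_of_nonneg_left (by linarith only [hL8]) (by positivity)
  have hinv48 : 1 / L ^ (A + 48) ≤ 1 / L ^ 5 := by
    apply one_div_le_one_div_of_le (by positivity)
    exact pow_le_pow_right₀ hL1 (by omega)
  have hHlow : 1 / L ^ 3 ≤ H := by
    have h1 := HP_ge K z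
    have h2 : 1 / L ≤ Vz z := by
      rw [div_le_iff₀ hL0]
      have h2' := hVL
      rw [hV, inv_le_iff_one_le_mul₀ hV0] at h2'
      linarith only [h2']
    have h3 : (1 / L) ^ 2 ≤ Vz z ^ 2 := pow_le_pow_left₀ (by positivity) h2 2
    have h4 := (abs_le.1 hdiff).2
    have h5 : 1 / L ^ 5 ≤ 1 / L ^ 3 := by
      apply one_div_le_one_div_of_le (by positivity)
      exact pow_le_pow_right₀ hL1 (by omega)
    have h6 : 2 * (1 / L ^ 3) ≤ (1 / L) ^ 2 := by
      rw [div_pow, one_pow, mul_one_div, div_le_div_iff₀ (by positivity) (by positivity), one_mul, pow_succ L 2, mul_comm]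
      exact mul_le_mul_of_nonneg_left (by linarith only [hL8]) (by positivity)
    linarith only [h1, h3, h4, h5, h6, hinv48]
  have hH0 : 0 < H := lt_of_lt_of_le (by positivity) hHlow
  have hHup : H ≤ 2 * L := by
    have h4 := (abs_le.1 hdiff).1
    have h5 : 1 / L ^ 5 ≤ 1 := by
      rw [div_le_one (by positivity)]
      exact one_le_pow₀ hL1
    linarith only [h4, h5, hinv48, hHPV, hVL, hL1]
  refine ⟨hH0, fun Q hQQ hQ y hy => ?_⟩
  -- the local constants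
  obtain ⟨δ, hδ⟩ : ∃ δ : ℝ, δ = |HP K z - H| + HP K z * (2 / z) := ⟨_, rfl⟩
  have hδ0 : 0 ≤ δ := by rw [hδ]; positivity
  have hδb : δ ≤ 1 / L ^ (A + 47) := by
    have h1 : HP K z * (2 / z) ≤ 1 / L ^ (A + 48) := by
      calc HP K z * (2 / z) ≤ L * (2 / (L ^ (A + 60) / 2)) := by
            apply mul_le_mul (hHPV.trans hVL) _ (by positivity) hL0.le
            apply div_le_div_of_nonneg_left (by norm_num) (by positivity)
            refine le_trans ?_ hz2
            apply div_le_div_of_nonneg_right _ (by norm_num)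
            exact pow_le_pow_right₀ hL1 hE
        _ = 4 / L ^ (A + 59) := by
            rw [pow_succ L (A + 59)]
            field_simp
            norm_num
        _ ≤ 1 / L ^ (A + 48) := by
            rw [div_le_div_iff₀ (by positivity) (by positivity), one_mul]
            calc 4 * L ^ (A + 48) ≤ L * L ^ (A + 48) := mul_le_mul_of_nonneg_right (by linarith only [hL8]) (by positivity)
              _ = L ^ (A + 49) := by rw [pow_succ L (A + 48)]; ring
              _ ≤ _ := pow_le_pow_right₀ hL1 (by omega)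
    have h2 : 1 / L ^ (A + 48) + 1 / L ^ (A + 48) ≤ 1 / L ^ (A + 47) := by
      rw [← two_mul, mul_one_div, div_le_div_iff₀ (by positivity) (by positivity), one_mul, pow_succ L (A + 47), mul_comm]
      exact mul_le_mul_of_nonneg_left (by linarith only [hL8]) (by positivity)
    rw [hδ]
    linarith only [h1, h2, hdiff]
  have hlocq : ∀ q : ℕ, 1 ≤ q → |V * Gq z q K - H / Fq K q| ≤ (q.divisors.card : ℝ) ^ 3 * δ := by
    intro q hq
    refine (loc K z q hz2' hq H).trans ?_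
    have hd := dcard_pos q hq
    have ho : (q.primeFactors.card : ℝ) ≤ q.divisors.card := by
      have h1 : q.primeFactors ⊆ q.divisors := by
        intro p hp
        rw [Nat.mem_divisors]
        exact ⟨Nat.dvd_of_mem_primeFactors hp, by omega⟩
      exact_mod_cast card_le_card h1
    have h2 : HP K z * (2 * q.primeFactors.card / z) ≤ (q.divisors.card : ℝ) * (HP K z * (2 / z)) := by
      have e1 : HP K z * (2 * q.primeFactors.card / z) = (q.primeFactors.card : ℝ) * (HP K z * (2 / z)) := by ring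
      rw [e1]
      exact mul_le_mul_of_nonneg_right ho (by positivity)
    have h3 : |HP K z - H| ≤ (q.divisors.card : ℝ) * |HP K z - H| := by
      have := mul_le_mul_of_nonneg_right hd (abs_nonneg (HP K z - H))
      linarith only [this]
    calc (q.divisors.card : ℝ) ^ 2 * (|HP K z - H| + HP K z * (2 * q.primeFactors.card / z))
        ≤ (q.divisors.card : ℝ) ^ 2 * ((q.divisors.card : ℝ) * |HP K z - H| + (q.divisors.card : ℝ) * (HP K z * (2 / z))) := by
          apply mul_le_mul_of_nonneg_left _ (by positivity)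
          linarith only [h2, h3]
      _ = _ := by rw [hδ]; ring
  have hmain := det_main X z G Q K H δ ρ1 ρ2 (L ^ (A + 3)) hM1 hG1 hH0.le hδ0 hρ10 hρ20 (by positivity) hP hfl hlocq y hy
  refine hmain.trans ?_
  have hS' : S2 X z Q G K ≤ X / L ^ (2 * (A + 49)) := (S2_mono X z Q Q0 G K hQQ).trans hS
  -- Q
  have hBd : (((c2 + 2 * A + 100 : ℕ)) : ℝ) = (c2 : ℝ) + 2 * A + 100 := by push_cast; ring
  rw [hBd] at hQ
  have hQX : (Q : ℝ) ≤ √X := by
    refine hQ.trans ?_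
    have h1 : Real.exp (-(((c2 : ℝ) + 2 * A + 100) * ℓ ^ 2)) ≤ 1 := by
      rw [Real.exp_le_one_iff]
      have : (0 : ℝ) ≤ c2 := Nat.cast_nonneg _
      have h2 : 0 ≤ ((c2 : ℝ) + 2 * A + 100) * ℓ ^ 2 := by positivity
      linarith only [h2]
    calc √X * Real.exp (-(((c2 : ℝ) + 2 * A + 100) * ℓ ^ 2)) ≤ √X * 1 := mul_le_mul_of_nonneg_left h1 hsX0.le
      _ = _ := mul_one _
  have hlogQ : 1 + Real.log Q ≤ 2 * L := by
    have h1 : Real.log Q ≤ L := by
      rcases Nat.eq_zero_or_pos Q with h0 | h0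
      · rw [h0, Nat.cast_zero, Real.log_zero]; exact hL0.le
      · apply Real.log_le_log (by exact_mod_cast h0)
        refine hQX.trans ?_
        rw [Real.sqrt_le_left hX0.le]
        nlinarith only [hX1]
    linarith only [h1, hL1]
  have hlogQ0 : 0 ≤ 1 + Real.log Q := by
    have := Real.log_natCast_nonneg Q
    linarith only [this]
  -- the terms
  have hWb : (M : ℝ) / G + 1 ≤ 3 * √X / L ^ (A + 10) := by
    have h2 : (M : ℝ) / G ≤ √X / (L ^ (A + 10) / 2) := div_le_div₀ hsX0.le hMX (by positivity) hG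
    have h3 : 1 ≤ √X / L ^ (A + 10) := by
      rw [le_div_iff₀ (by positivity), one_mul, hsX]
      refine (hLe2 _).trans ?_
      apply Real.exp_le_exp.2
      refine le_trans ?_ hc3
      apply mul_le_mul_of_nonneg_right _ (sq_nonneg _)
      push_cast
      have : (0 : ℝ) ≤ c2 := Nat.cast_nonneg _
      linarith only [this, hA0]
    have h4 : √X / (L ^ (A + 10) / 2) = 2 * (√X / L ^ (A + 10)) := by field_simp
    have h5 : 3 * √X / L ^ (A + 10) = 2 * (√X / L ^ (A + 10)) + √X / L ^ (A + 10) := by ring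
    linarith only [h2, h3, h4, h5]
  have hσ : ρ1 + δ ≤ 2 / L ^ (A + 47) := by
    have h2 : ρ1 ≤ 1 / L ^ (A + 47) := by
      refine hρ1b.trans ?_
      apply one_div_le_one_div_of_le (by positivity)
      exact pow_le_pow_right₀ hL1 (by omega)
    have h3 : 2 / L ^ (A + 47) = 1 / L ^ (A + 47) + 1 / L ^ (A + 47) := by ring
    linarith only [h2, h3, hδb]
  have u1 : 4 * S2 X z Q G K ≤ 4 * (X / L ^ (A + 7)) := by
    apply mul_le_mul_of_nonneg_left _ (by norm_num)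
    refine hS'.trans ?_
    apply div_le_div_of_nonneg_left hX0.le (by positivity)
    exact pow_le_pow_right₀ hL1 (by omega)
  have u2 := u2_num A X L M (ρ1 + δ) (1 + Real.log Q) hX0 hL1 hM0.le hMX (add_nonneg hρ10 hδ0) hσ hlogQ0 hlogQ
  have u3 := uQ_num A X L (ℓ ^ 2) c2 Q ρ2 hX0 hL1 (sq_nonneg _) hLe2 (Nat.cast_nonneg _) hQ hρ20
    (hρ2b.trans (by
      apply Real.exp_le_exp.2
      apply mul_le_mul_of_nonneg_right _ (sq_nonneg _)
      linarith only [hA0]))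
  have u4 := uQ_num A X L (ℓ ^ 2) c2 Q (L ^ (A + 3)) hX0 hL1 (sq_nonneg _) hLe2 (Nat.cast_nonneg _) hQ (by positivity)
    ((hLe2 _).trans (by
      apply Real.exp_le_exp.2
      apply mul_le_mul_of_nonneg_right _ (sq_nonneg _)
      push_cast
      have : (0 : ℝ) ≤ c2 := Nat.cast_nonneg _
      linarith only [this, hA0]))
  have u5 := u5_num A X L ((M : ℝ) / G + 1) H (1 + Real.log Q) hX0 hL1 (by positivity) hWb hH0.le hHup hlogQ0 hlogQ
  have u3' : 8 * (Q : ℝ) ^ 2 * ρ2 ^ 2 ≤ 8 * (X / L ^ (A + 7)) := by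
    rw [mul_assoc]; exact mul_le_mul_of_nonneg_left u3 (by norm_num)
  have u4' : 4 * (Q : ℝ) ^ 2 * (L ^ (A + 3)) ^ 2 ≤ 4 * (X / L ^ (A + 7)) := by
    rw [mul_assoc]; exact mul_le_mul_of_nonneg_left u4 (by norm_num)
  exact fin_num A X L H hX0 hLb hHlow _ _ _ _ _ u1 u2 u3' u4' u5

end Pool.Agent.Helper735_BDH
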