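import Pool.Agent.Helper735_BDH.Mom
import Pool.Agent.R460.SQ.Main

/-!
Local factors; the prime powers.
-/

set_option autoImplicit false

namespace Pool.Agent.Helper735_BDH

open Finset Filter
open Pool.Agent.TH892.SW
open Pool.Agent.H373R2.T7 (pz Vz lamz mem_pz Vz_pos Vz_le_one)
open Pool.Agent.R460.SQ (thp ppw vm_split ppw_nn sum_ppw)

/-- `∑` of the von Mangoldt function over the prime powers `|n² - K|` which are not prime -/
noncomputable def PPK (X : ℕ) (K : ℤ) : ℝ := ∑ n ∈ Icc 1 (Nat.sqrt X), ppw ((n : ℤ) ^ 2 - K).natAbs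

lemma PPK_nn (X : ℕ) (K : ℤ) : 0 ≤ PPK X K := sum_nonneg fun _ _ => ppw_nn _

lemma sum_abs_le (w : ℕ → ℝ) (hw : ∀ m, 0 ≤ w m) (hw0 : w 0 = 0) (X n : ℕ) (hn : n ^ 2 ≤ X) :
    ∑ K ∈ Icc (-(X : ℤ)) X, w ((n : ℤ) ^ 2 - K).natAbs ≤ 2 * ∑ m ∈ Icc 1 (2 * X), w m := by
  have hn' : (n : ℤ) ^ 2 ≤ X := by exact_mod_cast hn
  have hn0 : (0 : ℤ) ≤ (n : ℤ) ^ 2 := by positivity
  rw [← sum_fiberwise_of_maps_to (s := Icc (-(X : ℤ)) X) (t := range (2 * X + 1))
    (g := fun K : ℤ => ((n : ℤ) ^ 2 - K).natAbs) (fun K hK => by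
      rw [mem_Icc] at hK
      rw [mem_range]
      omega)]
  have h1 : ∀ m ∈ range (2 * X + 1), ∑ K ∈ (Icc (-(X : ℤ)) X).filter (fun K => ((n : ℤ) ^ 2 - K).natAbs = m),
      w ((n : ℤ) ^ 2 - K).natAbs ≤ 2 * w m := by
    intro m _
    calc ∑ K ∈ (Icc (-(X : ℤ)) X).filter (fun K => ((n : ℤ) ^ 2 - K).natAbs = m), w ((n : ℤ) ^ 2 - K).natAbs
        = ∑ _K ∈ (Icc (-(X : ℤ)) X).filter (fun K => ((n : ℤ) ^ 2 - K).natAbs = m), w m := by
          refine sum_congr rfl fun K hK => ?_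
          rw [(mem_filter.1 hK).2]
      _ = ((((Icc (-(X : ℤ)) X).filter (fun K => ((n : ℤ) ^ 2 - K).natAbs = m)).card : ℕ) : ℝ) * w m := by
          rw [sum_const, nsmul_eq_mul]
      _ ≤ 2 * w m := by
          apply mul_le_mul_of_nonneg_right _ (hw m)
          have h2 : (Icc (-(X : ℤ)) X).filter (fun K => ((n : ℤ) ^ 2 - K).natAbs = m) ⊆
              {(n : ℤ) ^ 2 - m, (n : ℤ) ^ 2 + m} := by
            intro K hK
            rw [mem_filter] at hK
            rw [mem_insert, mem_singleton]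
            omega
          exact_mod_cast (card_le_card h2).trans card_le_two
  refine (sum_le_sum h1).trans ?_
  rw [← mul_sum, sum_range_succ']
  rw [hw0, add_zero]
  apply le_of_eq
  congr 1
  rw [← sum_image (s := range (2 * X)) (g := fun i => i + 1) (f := fun m => w m) (fun a _ b _ h => Nat.succ_injective h)]
  apply sum_congr _ fun _ _ => rfl
  ext m
  rw [mem_image, mem_Icc]
  constructor
  · rintro ⟨i, hi, rfl⟩
    rw [mem_range] at hi
    omega
  · intro h
    exact ⟨m - 1, mem_range.2 (by omega), by omega⟩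

lemma ppw_zero : ppw 0 = 0 := by
  unfold ppw
  rw [if_neg (by norm_num)]
  simp

lemma pp_sum (X : ℕ) (hX : 1 ≤ X) : ∑ K ∈ Icc (-(X : ℤ)) X, PPK X K ≤
    √X * (2 * (2 * √((2 * X : ℕ) : ℝ) * Real.log ((2 * X : ℕ) : ℝ))) := by
  unfold PPK
  rw [sum_comm]
  have hb : 0 ≤ 2 * (2 * √((2 * X : ℕ) : ℝ) * Real.log ((2 * X : ℕ) : ℝ)) := by
    have : 0 ≤ Real.log ((2 * X : ℕ) : ℝ) := Real.log_natCast_nonneg _
    positivity
  calc ∑ n ∈ Icc 1 (Nat.sqrt X), ∑ K ∈ Icc (-(X : ℤ)) X, ppw ((n : ℤ) ^ 2 - K).natAbs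
      ≤ ∑ n ∈ Icc 1 (Nat.sqrt X), (2 * (2 * √((2 * X : ℕ) : ℝ) * Real.log ((2 * X : ℕ) : ℝ))) := by
        refine sum_le_sum fun n hn => ?_
        rw [mem_Icc] at hn
        have hn2 : n ^ 2 ≤ X := by
          calc n ^ 2 ≤ (Nat.sqrt X) ^ 2 := Nat.pow_le_pow_left hn.2 2
            _ ≤ X := Nat.sqrt_le' X
        refine (sum_abs_le ppw ppw_nn ppw_zero X n hn2).trans ?_
        apply mul_le_mul_of_nonneg_left _ (by norm_num)
        exact sum_ppw (by omega)
    _ = (Nat.sqrt X : ℝ) * (2 * (2 * √((2 * X : ℕ) : ℝ) * Real.log ((2 * X : ℕ) : ℝ))) := by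
        rw [sum_const, Nat.card_Icc, nsmul_eq_mul, Nat.add_sub_cancel]
    _ ≤ _ := by
        apply mul_le_mul_of_nonneg_right _ hb
        apply Real.le_sqrt_of_sq_le
        exact_mod_cast Nat.sqrt_le' X

lemma markov (s : Finset ℤ) (F : ℤ → ℝ) (hF : ∀ K, 0 ≤ F K) (S T : ℝ) (hT : 0 < T) (h : ∑ K ∈ s, F K ≤ S) :
    (((s.filter (fun K => T < F K)).card : ℕ) : ℝ) ≤ S / T := by
  rw [le_div_iff₀ hT]
  calc (((s.filter (fun K => T < F K)).card : ℕ) : ℝ) * T = ∑ _K ∈ s.filter (fun K => T < F K), T := by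
        rw [sum_const, nsmul_eq_mul]
    _ ≤ ∑ K ∈ s.filter (fun K => T < F K), F K := sum_le_sum fun K hK => (mem_filter.1 hK).2.le
    _ ≤ ∑ K ∈ s, F K := sum_le_sum_of_subset_of_nonneg (filter_subset _ _) fun K _ _ => hF K
    _ ≤ S := h

/-- the proportion of the residues coprime to `q` -/
noncomputable def Fq (K : ℤ) (q : ℕ) : ℝ := ∏ p ∈ q.primeFactors, (1 - rk K p / p)

lemma two_pow_omega_le (n : ℕ) (hn : n ≠ 0) : 2 ^ n.primeFactors.card ≤ n.divisors.card := by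
  rw [Nat.card_divisors hn, ← prod_const]
  apply prod_le_prod'
  intro p hp
  have := (Nat.mem_primeFactors.mp hp)
  have h := this.1.factorization_pos_of_dvd hn this.2.1
  omega

lemma fac_ge (K : ℤ) (p : ℕ) (hp : 2 ≤ p) : (1 / 4 : ℝ) ≤ 1 - rk K p / p := by
  rcases Nat.eq_or_lt_of_le hp with h | h
  · rw [← h]
    unfold rk
    norm_num
  · have h1 := rk_le K p
    have h2 : (3 : ℝ) ≤ p := by exact_mod_cast h
    have h3 : rk K p / p ≤ 2 / 3 := by
      rw [div_le_div_iff₀ (by linarith) (by norm_num)]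
      linarith
    linarith

lemma Fq_ge (K : ℤ) (q : ℕ) (hq : 1 ≤ q) : 1 / (q.divisors.card : ℝ) ^ 2 ≤ Fq K q := by
  have h1 : (1 / 4 : ℝ) ^ q.primeFactors.card ≤ Fq K q := by
    unfold Fq
    rw [← prod_const]
    apply prod_le_prod (fun _ _ => by norm_num)
    intro p hp
    exact fac_ge K p (Nat.prime_of_mem_primeFactors hp).two_le
  refine le_trans ?_ h1
  have h2 := two_pow_omega_le q (by omega)
  have h3 : (2 : ℝ) ^ q.primeFactors.card ≤ (q.divisors.card : ℝ) := by exact_mod_cast h2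
  rw [one_div_pow]
  apply one_div_le_one_div_of_le (by positivity)
  calc (4 : ℝ) ^ q.primeFactors.card = ((2 : ℝ) ^ q.primeFactors.card) ^ 2 := by
        rw [← pow_mul, mul_comm, pow_mul]; norm_num
    _ ≤ _ := pow_le_pow_left₀ (by positivity) h3 2

lemma Fq_pos (K : ℤ) (q : ℕ) : 0 < Fq K q := by
  unfold Fq
  apply prod_pos
  intro p hp
  have := fac_ge K p (Nat.prime_of_mem_primeFactors hp).two_le
  linarith

lemma one_sub_sum_le (S : Finset ℕ) (x : ℕ → ℝ) (h0 : ∀ p ∈ S, 0 ≤ x p) (h1 : ∀ p ∈ S, x p ≤ 1) :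
    1 - ∑ p ∈ S, x p ≤ ∏ p ∈ S, (1 - x p) := by
  classical
  induction S using Finset.induction_on with
  | empty => simp
  | insert a s ha ih =>
    rw [sum_insert ha, prod_insert ha]
    have i1 := ih (fun p hp => h0 p (mem_insert_of_mem hp)) (fun p hp => h1 p (mem_insert_of_mem hp))
    have i2 := h0 a (mem_insert_self _ _)
    have i3 := h1 a (mem_insert_self _ _)
    have i4 : 0 ≤ ∑ p ∈ s, x p := sum_nonneg fun p hp => h0 p (mem_insert_of_mem hp)
    calc 1 - (x a + ∑ p ∈ s, x p) ≤ (1 - x a) * (1 - ∑ p ∈ s, x p) := by nlinarith [mul_nonneg i2 i4]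
      _ ≤ _ := mul_le_mul_of_nonneg_left i1 (by linarith)

lemma HP_nonneg (K : ℤ) (z : ℕ) : 0 ≤ HP K z := by
  have h1 : 0 ≤ Vz z * HP K z := by
    rw [← prod_rk]
    apply prod_nonneg
    intro p hp
    exact fac_nonneg K p (mem_pz.1 hp).2.two_le
  have h2 := Vz_pos z
  by_contra hc
  have := mul_neg_of_pos_of_neg h2 (not_le.1 hc)
  linarith

lemma HP_le (K : ℤ) (z : ℕ) : HP K z ≤ (Vz z)⁻¹ := by
  have h1 : Vz z * HP K z ≤ 1 := by
    rw [← prod_rk]
    apply prod_le_one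
    · intro p hp
      exact fac_nonneg K p (mem_pz.1 hp).2.two_le
    · intro p _
      exact fac_le_one K p
  have h2 := Vz_pos z
  rw [← one_div, le_div_iff₀ h2, mul_comm]
  exact h1

lemma HP_ge (K : ℤ) (z : ℕ) : Vz z ^ 2 ≤ HP K z := by
  have h2 := Vz_pos z
  have h1 : Vz z ^ 3 ≤ Vz z * HP K z := by
    rw [← prod_rk]
    unfold Vz
    rw [← prod_pow]
    apply Finset.prod_le_prod
    · intro p hp
      have hp2 : (2 : ℝ) ≤ p := by exact_mod_cast (mem_pz.1 hp).2.two_le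
      have : 1 / (p : ℝ) ≤ 1 := by rw [div_le_one (by linarith)]; linarith
      have : 0 ≤ 1 - 1 / (p : ℝ) := by linarith
      positivity
    · intro p hp
      have hp2 : 2 ≤ p := (mem_pz.1 hp).2.two_le
      rcases Nat.eq_or_lt_of_le hp2 with h | h
      · rw [← h]
        unfold rk
        norm_num
      · have h3 : (3 : ℝ) ≤ p := by exact_mod_cast h
        have h4 := rk_le K p
        have h5 : rk K p / p ≤ 2 / p := div_le_div_of_nonneg_right h4 (by linarith)
        have h6 : (1 - 1 / (p : ℝ)) ^ 3 ≤ 1 - 2 / p := by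
          have h7 : 1 - 2 / (p : ℝ) - (1 - 1 / (p : ℝ)) ^ 3 = ((p : ℝ) ^ 2 - 3 * p + 1) / (p : ℝ) ^ 3 := by
            field_simp
            ring
          have h8 : 0 ≤ ((p : ℝ) ^ 2 - 3 * p + 1) / (p : ℝ) ^ 3 := by
            apply div_nonneg
            · nlinarith
            · positivity
          linarith
        linarith
  have h3 : Vz z * (Vz z ^ 2) ≤ Vz z * HP K z := by
    calc Vz z * (Vz z ^ 2) = Vz z ^ 3 := by ring
      _ ≤ _ := h1
  exact le_of_mul_le_mul_left h3 h2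

/-- the constants in the classes -/
lemma loc (K : ℤ) (z q : ℕ) (hz : 2 ≤ z) (hq : 1 ≤ q) (H : ℝ) :
    |(Vz z)⁻¹ * Gq z q K - H / Fq K q| ≤
      (q.divisors.card : ℝ) ^ 2 * (|HP K z - H| + HP K z * (2 * q.primeFactors.card / z)) := by
  set a := ∏ p ∈ (pz z).filter (fun p => p ∣ q), (1 - rk K p / p) with ha
  set F' := ∏ p ∈ q.primeFactors.filter (fun p => ¬ p ≤ z), (1 - rk K p / p) with hF'
  have hV := Vz_pos z
  have hF0 := Fq_pos K q
  have hsp : a * F' = Fq K q := by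
    unfold Fq
    rw [← prod_filter_mul_prod_filter_not q.primeFactors (fun p => p ≤ z), hF', ha]
    congr 1
    apply prod_congr _ fun _ _ => rfl
    ext p
    rw [mem_filter, mem_filter, mem_pz, Nat.mem_primeFactors]
    constructor
    · rintro ⟨⟨h1, h2⟩, h3⟩
      exact ⟨⟨h2, h3, by omega⟩, h1⟩
    · rintro ⟨⟨h1, h2, _⟩, h3⟩
      exact ⟨⟨h3, h1⟩, h2⟩
  have hFa : 0 ≤ 1 - F' := by
    have : F' ≤ 1 := by
      apply prod_le_one
      · intro p hp
        exact fac_nonneg K p (Nat.prime_of_mem_primeFactors (mem_filter.1 hp).1).two_le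
      · intro p _
        exact fac_le_one K p
    linarith
  have hF'0 : 0 < F' := by
    apply prod_pos
    intro p hp
    have := fac_ge K p (Nat.prime_of_mem_primeFactors (mem_filter.1 hp).1).two_le
    linarith
  have hFb : 1 - F' ≤ 2 * q.primeFactors.card / z := by
    have hz0 : (0 : ℝ) < z := by exact_mod_cast (by omega : 0 < z)
    have h1 := one_sub_sum_le (q.primeFactors.filter (fun p => ¬ p ≤ z)) (fun p => rk K p / p)
      (fun p _ => div_nonneg (rk_nonneg K p) (Nat.cast_nonneg _))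
      (fun p hp => by
        have := fac_nonneg K p (Nat.prime_of_mem_primeFactors (mem_filter.1 hp).1).two_le
        linarith)
    have h2 : ∑ p ∈ q.primeFactors.filter (fun p => ¬ p ≤ z), rk K p / p ≤
        ∑ _p ∈ q.primeFactors.filter (fun p => ¬ p ≤ z), 2 / (z : ℝ) := by
      refine sum_le_sum fun p hp => ?_
      have h3 := (mem_filter.1 hp).2
      have h4 : (z : ℝ) ≤ p := by exact_mod_cast (by omega : z ≤ p)
      exact div_le_div₀ (by norm_num) (rk_le K p) hz0 h4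
    rw [sum_const, nsmul_eq_mul] at h2
    have h3 : (((q.primeFactors.filter (fun p => ¬ p ≤ z)).card : ℕ) : ℝ) * (2 / z) ≤ q.primeFactors.card * (2 / z) := by
      apply mul_le_mul_of_nonneg_right _ (by positivity)
      exact_mod_cast card_filter_le _ _
    have h4 : (q.primeFactors.card : ℝ) * (2 / z) = 2 * q.primeFactors.card / z := by ring
    linarith
  have hGm := Gq_mul z q K
  rw [← ha] at hGm
  have ha0 : 0 < a := by
    rw [← hsp] at hF0
    by_contra hc
    have := mul_nonpos_of_nonpos_of_nonneg (not_lt.1 hc) hF'0.le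
    linarith
  have e1 : (Vz z)⁻¹ * Gq z q K = HP K z / a := by
    rw [eq_div_iff ha0.ne']
    have : (Vz z)⁻¹ * Gq z q K * a = (Vz z)⁻¹ * (a * Gq z q K) := by ring
    rw [this, hGm, ← mul_assoc, inv_mul_cancel₀ hV.ne', one_mul]
  have e2 : HP K z / a - H / Fq K q = ((HP K z - H) - HP K z * (1 - F')) / Fq K q := by
    rw [← hsp]
    field_simp
    ring
  rw [e1, e2, abs_div, abs_of_pos hF0, div_eq_mul_one_div, mul_comm]
  have h5 := Fq_ge K q hq
  have h6 : 1 / Fq K q ≤ (q.divisors.card : ℝ) ^ 2 := by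
    have hd : (0 : ℝ) < (q.divisors.card : ℝ) ^ 2 := by
      have : 0 < q.divisors.card := Finset.card_pos.2 ⟨1, Nat.mem_divisors.2 ⟨one_dvd _, by omega⟩⟩
      positivity
    rw [div_le_iff₀ hF0]
    rw [div_le_iff₀ hd] at h5
    linarith
  apply mul_le_mul h6 _ (abs_nonneg _) (by positivity)
  refine (abs_sub _ _).trans ?_
  rw [abs_of_nonneg (mul_nonneg (HP_nonneg K z) hFa)]
  have := mul_le_mul_of_nonneg_left hFb (HP_nonneg K z)
  linarith

end Pool.Agent.Helper735_BDH
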