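import Pool.Agent.Helper735_BDH.Four
import Pool.Agent.Helper735_BDH.Flc

/-!
The second moment over `K` and over all residue classes to all moduli `q ≤ Q`.
-/

set_option autoImplicit false

namespace Pool.Agent.Helper735_BDH

open Finset Filter
open Pool.Agent.TH892.SW
open Pool.Agent.H373R2.T7 (pz Vz lamz mem_pz Vz_pos)
open Pool.Agent.W110.HV (ES)

/-- von Mangoldt minus the sieve model at `n² - K` -/
noncomputable def dm (z : ℕ) (K : ℤ) (n : ℕ) : ℝ :=
  ArithmeticFunction.vonMangoldt ((n : ℤ) ^ 2 - K).natAbs - mz z K n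

/-- the indices: modulus, residue, position -/
def Om (Q G : ℕ) : Finset (Σ _ : ℕ, ℕ × ℕ) := (Icc 1 Q).sigma fun q => range q ×ˢ range (G + 1)

/-- the weights -/
def cw (M G : ℕ) (ω : Σ _ : ℕ, ℕ × ℕ) (n : ℕ) : ℝ :=
  if n ≡ ω.2.1 [MOD ω.1] ∧ n ≤ ω.2.2 * M / G then 1 else 0

lemma cw_sq (M G : ℕ) (ω : Σ _ : ℕ, ℕ × ℕ) (n : ℕ) : cw M G ω n ^ 2 = cw M G ω n := by
  unfold cw
  split_ifs <;> norm_num

lemma cw_nonneg (M G : ℕ) (ω : Σ _ : ℕ, ℕ × ℕ) (n : ℕ) : 0 ≤ cw M G ω n := by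
  unfold cw
  split_ifs <;> norm_num

lemma cw_le (M G q r j n : ℕ) : cw M G ⟨q, r, j⟩ n ≤ if n ≡ r [MOD q] then 1 else 0 := by
  unfold cw
  by_cases h1 : n ≡ r [MOD q]
  · rw [if_pos h1]
    split_ifs <;> norm_num
  · rw [if_neg h1, if_neg (fun h => h1 h.1)]

lemma sum_res (q n : ℕ) (hq : 1 ≤ q) (c : ℝ) : ∑ r ∈ range q, (if n ≡ r [MOD q] then c else 0) = c := by
  have h1 : ∀ r ∈ range q, (if n ≡ r [MOD q] then c else 0) = if r = n % q then c else 0 := by
    intro r hr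
    rw [mem_range] at hr
    congr 1
    apply propext
    constructor
    · intro h
      rw [Nat.ModEq, Nat.mod_eq_of_lt hr] at h
      exact h.symm
    · intro h
      rw [Nat.ModEq, Nat.mod_eq_of_lt hr]
      exact h.symm
  rw [sum_congr rfl h1, sum_ite_eq' (range q) (n % q) (fun _ => c), if_pos (mem_range.2 (Nat.mod_lt _ (by omega)))]

lemma diag_bound (M G Q n : ℕ) : ∑ ω ∈ Om Q G, cw M G ω n ^ 2 ≤ Q * ((G : ℝ) + 1) := by
  unfold Om
  rw [sum_sigma]
  calc ∑ q ∈ Icc 1 Q, ∑ s ∈ range q ×ˢ range (G + 1), cw M G ⟨q, s⟩ n ^ 2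
      ≤ ∑ q ∈ Icc 1 Q, ((G : ℝ) + 1) := by
        refine sum_le_sum fun q hq => ?_
        rw [mem_Icc] at hq
        rw [sum_product]
        calc ∑ r ∈ range q, ∑ j ∈ range (G + 1), cw M G ⟨q, (r, j)⟩ n ^ 2
            ≤ ∑ r ∈ range q, (if n ≡ r [MOD q] then ((G : ℝ) + 1) else 0) := by
              refine sum_le_sum fun r _ => ?_
              calc ∑ j ∈ range (G + 1), cw M G ⟨q, (r, j)⟩ n ^ 2
                  ≤ ∑ j ∈ range (G + 1), (if n ≡ r [MOD q] then (1 : ℝ) else 0) := by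
                    refine sum_le_sum fun j _ => ?_
                    rw [cw_sq]
                    exact cw_le M G q r j n
                _ = _ := by
                    rw [sum_const, card_range, nsmul_eq_mul]
                    split_ifs <;> push_cast <;> ring
          _ = (G : ℝ) + 1 := sum_res q n hq.1 _
    _ = Q * ((G : ℝ) + 1) := by
        rw [sum_const, Nat.card_Icc, nsmul_eq_mul, Nat.add_sub_cancel]

lemma pair_bound (M G Q n n' : ℕ) (hne : n ≠ n') : |∑ ω ∈ Om Q G, cw M G ω n * cw M G ω n'| ≤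
    ((G : ℝ) + 1) * ((((n' : ℤ) - n).natAbs.divisors.card : ℕ) : ℝ) ^ 1 := by
  rw [abs_of_nonneg (sum_nonneg fun ω _ => mul_nonneg (cw_nonneg _ _ _ _) (cw_nonneg _ _ _ _)), pow_one]
  unfold Om
  rw [sum_sigma]
  calc ∑ q ∈ Icc 1 Q, ∑ s ∈ range q ×ˢ range (G + 1), cw M G ⟨q, s⟩ n * cw M G ⟨q, s⟩ n'
      ≤ ∑ q ∈ Icc 1 Q, (if q ∣ ((n' : ℤ) - n).natAbs then ((G : ℝ) + 1) else 0) := by
        refine sum_le_sum fun q hq => ?_
        rw [mem_Icc] at hq
        rw [sum_product]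
        calc ∑ r ∈ range q, ∑ j ∈ range (G + 1), cw M G ⟨q, (r, j)⟩ n * cw M G ⟨q, (r, j)⟩ n'
            ≤ ∑ r ∈ range q, (if n ≡ r [MOD q] then
                (if q ∣ ((n' : ℤ) - n).natAbs then ((G : ℝ) + 1) else 0) else 0) := by
              refine sum_le_sum fun r _ => ?_
              calc ∑ j ∈ range (G + 1), cw M G ⟨q, (r, j)⟩ n * cw M G ⟨q, (r, j)⟩ n'
                  ≤ ∑ j ∈ range (G + 1), (if n ≡ r [MOD q] then
                      (if q ∣ ((n' : ℤ) - n).natAbs then (1 : ℝ) else 0) else 0) := by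
                    refine sum_le_sum fun j _ => ?_
                    have h1 := cw_le M G q r j n
                    have h2 := cw_le M G q r j n'
                    have h3 := cw_nonneg M G ⟨q, (r, j)⟩ n
                    have h4 := cw_nonneg M G ⟨q, (r, j)⟩ n'
                    by_cases ha : n ≡ r [MOD q]
                    · by_cases hb : n' ≡ r [MOD q]
                      · rw [if_pos ha] at h1
                        rw [if_pos hb] at h2
                        have h5 : q ∣ ((n' : ℤ) - n).natAbs := by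
                          have h6 : n ≡ n' [MOD q] := ha.trans hb.symm
                          have h7 := (Nat.modEq_iff_dvd).1 h6
                          exact Int.natCast_dvd.1 h7
                        rw [if_pos ha, if_pos h5]
                        nlinarith
                      · rw [if_neg hb] at h2
                        have h5 : cw M G ⟨q, (r, j)⟩ n' = 0 := le_antisymm h2 h4
                        rw [h5, mul_zero]
                        split_ifs <;> norm_num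
                    · rw [if_neg ha] at h1
                      have h5 : cw M G ⟨q, (r, j)⟩ n = 0 := le_antisymm h1 h3
                      rw [h5, zero_mul]
                      split_ifs <;> norm_num
                _ = _ := by
                    rw [sum_const, card_range, nsmul_eq_mul]
                    split_ifs <;> push_cast <;> ring
          _ = _ := sum_res q n hq.1 _
    _ = ((((Icc 1 Q).filter (fun q => q ∣ ((n' : ℤ) - n).natAbs)).card : ℕ) : ℝ) * ((G : ℝ) + 1) := by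
        rw [← sum_filter, sum_const, nsmul_eq_mul]
    _ ≤ ((G : ℝ) + 1) * ((((n' : ℤ) - n).natAbs.divisors.card : ℕ) : ℝ) := by
        rw [mul_comm]
        apply mul_le_mul_of_nonneg_left _ (by positivity)
        have h1 : (Icc 1 Q).filter (fun q => q ∣ ((n' : ℤ) - n).natAbs) ⊆ ((n' : ℤ) - n).natAbs.divisors := by
          intro q hq
          rw [mem_filter] at hq
          rw [Nat.mem_divisors]
          exact ⟨hq.2, by omega⟩
        exact_mod_cast card_le_card h1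

/-- the two signs -/
lemma dm_split (X z : ℕ) (hz : 2 ≤ z) (K : ℤ) (hK : K ∈ Icc (-(X : ℤ)) X) (c : ℕ → ℝ) :
    ∑ n ∈ Icc 1 (Nat.sqrt X), c n * dm z K n =
      TW 1 (Nat.sqrt X) (2 * X) c (fm z) K + TW (-1) (Nat.sqrt X) (2 * X) c (fm z) K := by
  rw [mem_Icc] at hK
  unfold TW
  rw [← sum_add_distrib]
  refine sum_congr rfl fun n hn => ?_
  rw [mem_Icc] at hn
  have hn2 : n ^ 2 ≤ X := by
    calc n ^ 2 ≤ (Nat.sqrt X) ^ 2 := Nat.pow_le_pow_left hn.2 2
      _ ≤ X := Nat.sqrt_le' X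
  have hn3 : (n : ℤ) ^ 2 ≤ X := by exact_mod_cast hn2
  have hn0 : (0 : ℤ) ≤ (n : ℤ) ^ 2 := by positivity
  rw [← mul_add]
  congr 1
  unfold dm mz
  rcases lt_trichotomy ((n : ℤ) ^ 2 - K) 0 with h | h | h
  · rw [if_neg (by push_cast; omega), if_pos (by push_cast; constructor <;> omega), zero_add]
    unfold fm
    rw [if_pos (by omega)]
    have h1 : (-1 * ((n : ℤ) ^ 2 - K)).toNat = ((n : ℤ) ^ 2 - K).natAbs := by omega
    rw [h1]
  · rw [h, if_neg (by norm_num), if_neg (by norm_num)]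
    simp only [Int.natAbs_zero, ArithmeticFunction.map_zero, add_zero, zero_sub, neg_eq_zero]
    unfold lamz
    rw [if_neg]
    push Not
    exact ⟨2, mem_pz.2 ⟨hz, Nat.prime_two⟩, dvd_zero _⟩
  · rw [if_pos (by push_cast; constructor <;> omega), if_neg (by push_cast; omega), add_zero]
    unfold fm
    rw [if_pos (by omega)]
    have h1 : (1 * ((n : ℤ) ^ 2 - K)).toNat = ((n : ℤ) ^ 2 - K).natAbs := by omega
    rw [h1]

/-- the sum of the squares over all classes -/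
noncomputable def S2 (X z Q G : ℕ) (K : ℤ) : ℝ :=
  ∑ ω ∈ Om Q G, (∑ n ∈ Icc 1 (Nat.sqrt X), cw (Nat.sqrt X) G ω n * dm z K n) ^ 2

lemma ev_log_ge (c : ℝ) : ∃ X0 : ℕ, ∀ X : ℕ, X0 ≤ X → c ≤ Real.log X := by
  have h := (Real.tendsto_log_atTop.comp tendsto_natCast_atTop_atTop).eventually_ge_atTop c
  obtain ⟨X0, h0⟩ := eventually_atTop.1 h
  exact ⟨X0, h0⟩

/-- the second moment -/
theorem mom (A1 g : ℕ) : ∃ B0 B : ℕ, ∀ E : ℕ, ∃ X0 : ℕ, ∀ X : ℕ, X0 ≤ X → ∀ z : ℕ, 2 ≤ z →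
    Real.log ((2 * X : ℕ) : ℝ) ^ B0 ≤ z → (z : ℝ) ≤ Real.log ((2 * X : ℕ) : ℝ) ^ E → ∀ G Q : ℕ,
    (G : ℝ) + 1 ≤ Real.log X ^ g → (Q : ℝ) ≤ √X / Real.log X ^ B →
    ∑ K ∈ Icc (-(X : ℤ)) X, S2 X z Q G K ≤ (X : ℝ) ^ 2 / Real.log X ^ A1 := by
  obtain ⟨B0, hB0⟩ := sup_fm (A1 + g + 10)
  refine ⟨B0, A1 + g + 3, fun E => ?_⟩
  obtain ⟨N1, hN1⟩ := hB0 E
  obtain ⟨N2, hN2⟩ := sq_fm E
  obtain ⟨N3, hN3⟩ := ev_log_ge 500000
  refine ⟨N1 + N2 + N3 + 2, fun X hX z hz2 hz1 hzE G Q hG hQ => ?_⟩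
  set M := Nat.sqrt X with hM
  set Y := 2 * X with hY
  set L := Real.log X with hL
  have hL5 : 500000 ≤ L := hN3 X (by omega)
  have hL0 : 0 < L := by linarith
  have hX1 : (1 : ℝ) ≤ X := by exact_mod_cast (by omega : 1 ≤ X)
  have hX0 : (0 : ℝ) < X := by linarith
  set LY := Real.log (Y : ℝ) with hLY
  have hLY1 : L ≤ LY := by
    apply Real.log_le_log hX0
    exact_mod_cast (by omega : X ≤ Y)
  have hLY2 : LY ≤ 2 * L := by
    rw [hLY, hY]
    push_cast
    rw [Real.log_mul (by norm_num) (by linarith)]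
    have := Real.log_two_lt_d9
    linarith
  have hMX : (M : ℝ) ≤ √X := by
    apply Real.le_sqrt_of_sq_le
    exact_mod_cast Nat.sqrt_le' X
  have hYr : (Y : ℝ) = 2 * X := by rw [hY]; push_cast; ring
  set Z := (Y : ℝ) / LY ^ (A1 + g + 10) with hZ
  have hZ0 : 0 ≤ Z := by positivity
  set Qf := (Y : ℝ) * LY ^ 2 with hQf
  have hQf0 : 0 ≤ Qf := by positivity
  have hsup : ∀ α : ℝ, ‖ES 1 (Y : ℤ) (fun n => (fm z n : ℂ)) α‖ ≤ Z :=
    hN1 Y (by omega) z hz1 hzE
  have hsq : ∑ u ∈ Icc (1 : ℤ) Y, fm z u ^ 2 ≤ Qf := hN2 Y (by omega) z (by omega) hzE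
  have key : ∀ s : ℤ, s = 1 ∨ s = -1 → ∑ K ∈ Icc (-(X : ℤ)) X, ∑ ω ∈ Om Q G, TW s M Y (cw M G ω) (fm z) K ^ 2 ≤
      (X : ℝ) ^ 2 / L ^ A1 / 4 := by
    intro s hs
    have h1 := secondW s hs M Y (fm z) (Om Q G) (fun ω => cw M G ω) Z Qf (Q * ((G : ℝ) + 1)) ((G : ℝ) + 1) 1
      hZ0 hsup hsq (fun n _ => diag_bound M G Q n) (by positivity) (by positivity)
      (fun n _ n' _ hne => pair_bound M G Q n n' hne)
    have h2 : ∑ K ∈ Icc (-(X : ℤ)) X, ∑ ω ∈ Om Q G, TW s M Y (cw M G ω) (fm z) K ^ 2 ≤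
        ∑ K ∈ Icc (-(Y : ℤ)) ((M : ℤ) ^ 2 + Y), ∑ ω ∈ Om Q G, TW s M Y (cw M G ω) (fm z) K ^ 2 := by
      apply sum_le_sum_of_subset_of_nonneg
      · apply Icc_subset_Icc
        · omega
        · have : (0 : ℤ) ≤ (M : ℤ) ^ 2 := by positivity
          omega
      · intro _ _ _
        exact sum_nonneg fun _ _ => sq_nonneg _
    refine h2.trans (h1.trans ?_)
    have hQM : (Q : ℝ) * ((G : ℝ) + 1) * M * Qf ≤ 8 * (X : ℝ) ^ 2 / L ^ (A1 + 1) := by
      calc (Q : ℝ) * ((G : ℝ) + 1) * M * Qf ≤ (√X / L ^ (A1 + g + 3)) * L ^ g * √X * (2 * X * (2 * L) ^ 2) := by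
            rw [hQf, hYr]
            gcongr
        _ = (√X * √X) * (8 * X) * (L ^ g * L ^ 2) / L ^ (A1 + g + 3) := by ring
        _ = X * (8 * X) * L ^ (g + 2) / (L ^ (A1 + 1) * L ^ (g + 2)) := by
            rw [Real.mul_self_sqrt hX0.le, ← pow_add, ← pow_add]
            congr 2
            ring
        _ = 8 * (X : ℝ) ^ 2 / L ^ (A1 + 1) := by
            field_simp
    have hWb : ((G : ℝ) + 1) * (√(2 * (Y * (1 + Real.log Y) ^ (2 ^ (2 * (1 + 1))))) * √(Z ^ 2 * Qf)) ≤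
        104976 * (X : ℝ) ^ 2 / L ^ (A1 + 1) := by
      have e1 : √(Z ^ 2 * Qf) = Z * (√Y * LY) := by
        rw [hQf, Real.sqrt_mul (sq_nonneg _), Real.sqrt_sq hZ0, Real.sqrt_mul (by positivity),
          Real.sqrt_sq (by linarith)]
      have e2 : √(2 * (Y * (1 + Real.log Y) ^ (2 ^ (2 * (1 + 1))))) ≤ 2 * √Y * (1 + LY) ^ 8 := by
        rw [Real.sqrt_le_left (by positivity)]
        rw [mul_pow, mul_pow, Real.sq_sqrt (by positivity), ← pow_mul, ← hLY]
        norm_num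
        have : 0 ≤ (Y : ℝ) * (1 + LY) ^ 16 := by positivity
        linarith
      rw [e1]
      have e3 : 1 + LY ≤ 3 * L := by linarith
      calc ((G : ℝ) + 1) * (√(2 * (Y * (1 + Real.log Y) ^ (2 ^ (2 * (1 + 1))))) * (Z * (√Y * LY)))
          ≤ L ^ g * ((2 * √Y * (3 * L) ^ 8) * ((Y / L ^ (A1 + g + 10)) * (√Y * (2 * L)))) := by
            have e4 : Z ≤ Y / L ^ (A1 + g + 10) := by
              rw [hZ]; gcongr
            have e5 : 2 * √Y * (1 + LY) ^ 8 ≤ 2 * √Y * (3 * L) ^ 8 := by gcongr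
            gcongr
            exact e2.trans e5
        _ = 26244 * (√Y * √Y) * Y * (L ^ g * L ^ 9) / L ^ (A1 + g + 10) := by ring
        _ = 26244 * Y * Y * L ^ (g + 9) / (L ^ (A1 + 1) * L ^ (g + 9)) := by
            rw [Real.mul_self_sqrt (by positivity), ← pow_add, ← pow_add]
            congr 2
            ring
        _ = 104976 * (X : ℝ) ^ 2 / L ^ (A1 + 1) := by
            rw [hYr]
            field_simp
            norm_num
    have hfin : 8 * (X : ℝ) ^ 2 / L ^ (A1 + 1) + 104976 * (X : ℝ) ^ 2 / L ^ (A1 + 1) ≤ (X : ℝ) ^ 2 / L ^ A1 / 4 := by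
      rw [← add_div, div_div, div_le_div_iff₀ (by positivity) (by positivity), pow_succ L]
      have h5 : 0 ≤ (X : ℝ) ^ 2 * L ^ A1 := by positivity
      have h6 : 0 ≤ (X : ℝ) ^ 2 * L ^ A1 * (L - 419936) := mul_nonneg h5 (by linarith)
      linarith
    linarith
  calc ∑ K ∈ Icc (-(X : ℤ)) X, S2 X z Q G K
      ≤ ∑ K ∈ Icc (-(X : ℤ)) X, (2 * ∑ ω ∈ Om Q G, TW 1 M Y (cw M G ω) (fm z) K ^ 2 +
          2 * ∑ ω ∈ Om Q G, TW (-1) M Y (cw M G ω) (fm z) K ^ 2) := by
        refine sum_le_sum fun K hK => ?_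
        unfold S2
        rw [mul_sum, mul_sum, ← sum_add_distrib]
        refine sum_le_sum fun ω _ => ?_
        rw [dm_split X z hz2 K hK]
        have := sq_nonneg (TW 1 M Y (cw M G ω) (fm z) K - TW (-1) M Y (cw M G ω) (fm z) K)
        nlinarith
    _ = 2 * ∑ K ∈ Icc (-(X : ℤ)) X, ∑ ω ∈ Om Q G, TW 1 M Y (cw M G ω) (fm z) K ^ 2 +
          2 * ∑ K ∈ Icc (-(X : ℤ)) X, ∑ ω ∈ Om Q G, TW (-1) M Y (cw M G ω) (fm z) K ^ 2 := by
        rw [sum_add_distrib, mul_sum, mul_sum]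
    _ ≤ (X : ℝ) ^ 2 / L ^ A1 := by
        have h1 := key 1 (Or.inl rfl)
        have h2 := key (-1) (Or.inr rfl)
        linarith

end Pool.Agent.Helper735_BDH
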