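import Pool.Agent.Helper735_BDH.Fin

/-!
The number of the exceptional integers.
-/

set_option autoImplicit false

namespace Pool.Agent.Helper735_BDH

open Finset Filter
open Pool.Agent.TH892.SW
open Pool.Agent.H373R2.T7 (pz Vz lamz mem_pz Vz_pos Vz_le_one Vz_inv_small)
open Pool.Agent.R460.SQ (thp ppw vm_split ppw_nn sum_ppw)
open Pool.Agent.Results.MP_391708_nt.FullConstantInClasses (IsConstant)

/-- the conclusion for one `K = -a` -/
def GoodK (A B X : ℕ) (a : ℤ) : Prop :=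
  ∃ H : ℝ, 0 < H ∧ IsConstant a H ∧
    ∀ Q : ℕ, (Q : ℝ) ≤ √X * Real.exp (-(B * Real.log (Real.log X) ^ 2)) →
      ∀ y : ℕ → ℕ → ℕ, (∀ q r, y q r ^ 2 ≤ X) →
        ∑ q ∈ Icc 1 Q, ∑ r ∈ red (-a) q, (thK (-a) (y q r) q r - H / ph (-a) q * y q r) ^ 2 ≤ H ^ 2 * X / Real.log X ^ A

lemma theta_eq (a : ℤ) (y : ℕ) : Pool.Agent.Results.MP_391708_nt.FullConstantInClasses.theta a y = thK (-a) y 1 0 := by
  unfold Pool.Agent.Results.MP_391708_nt.FullConstantInClasses.theta thK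
  rw [filter_true_of_mem (fun n _ => Nat.modEq_one)]
  refine sum_congr rfl fun n _ => ?_
  unfold thp
  rw [sub_neg_eq_add]

open Classical in
theorem thm (A : ℕ) : ∃ B X0 : ℕ, ∀ X : ℕ, X0 ≤ X →
    (((Icc (-(X : ℤ)) X).filter (fun a => ¬ GoodK A B X a)).card : ℝ) ≤ X / Real.log X ^ A := by
  obtain ⟨B0, Bm, hmom⟩ := mom (2 * (A + 49) + (A + 1)) (A + 11)
  obtain ⟨E, hE⟩ : ∃ E : ℕ, E = B0 + 1 + (A + 60) := ⟨_, rfl⟩
  obtain ⟨Bd, N1, hdet⟩ := detK A E (by omega)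
  obtain ⟨N2, hN2⟩ := hmom E
  obtain ⟨N3, hN3⟩ := Pool.Agent.Results.MP_391708_nt.FullConstantInClasses.result (1 / 4) (by norm_num) (A + 1) (A + 49) 1
  obtain ⟨N4, hN4⟩ := ev_log_ge ((2 : ℝ) ^ (B0 + 1) + 1000)
  obtain ⟨N5, hN5⟩ := ev_log_sq Bm
  refine ⟨Bd + Bm, N1 + N2 + N3 + N4 + N5 + 16, fun X hX => ?_⟩
  set L := Real.log X with hL
  have hLb : (2 : ℝ) ^ (B0 + 1) + 1000 ≤ L := hN4 X (by omega)
  have hpw : (0 : ℝ) < 2 ^ (B0 + 1) := by positivity
  have hL1 : 1 ≤ L := by linarith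
  have hL0 : 0 < L := by linarith
  have hX1 : (16 : ℝ) ≤ X := by exact_mod_cast (by omega : 16 ≤ X)
  have hX0 : (0 : ℝ) < X := by linarith
  have hℓ1 : 1 ≤ Real.log L := by
    rw [Real.le_log_iff_exp_le hL0]
    have := Real.exp_one_lt_d9
    linarith
  have hℓ2 : Real.log L ≤ Real.log L ^ 2 := by nlinarith
  have hLe2 : ∀ n : ℕ, L ^ n ≤ Real.exp (n * Real.log L ^ 2) := by
    intro n
    rw [pow_exp L hL0 n]
    apply Real.exp_le_exp.2
    exact mul_le_mul_of_nonneg_left hℓ2 (Nat.cast_nonneg _)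
  have hsX : √(X : ℝ) = Real.exp (L / 2) := by
    rw [Real.sqrt_eq_rpow, Real.rpow_def_of_pos hX0]
    congr 1
    rw [hL]; ring
  have hsX0 : 0 < √(X : ℝ) := by rw [hsX]; exact Real.exp_pos _
  -- the parameters
  obtain ⟨z, hz⟩ : ∃ z : ℕ, z = ⌊L ^ E⌋₊ := ⟨_, rfl⟩
  obtain ⟨G, hG⟩ : ∃ G : ℕ, G = ⌊L ^ (A + 10)⌋₊ := ⟨_, rfl⟩
  obtain ⟨Q0, hQ0⟩ : ∃ Q0 : ℕ, Q0 = ⌊√(X : ℝ) / L ^ Bm⌋₊ := ⟨_, rfl⟩
  have hfl : ∀ x : ℝ, 2 ≤ x → x / 2 ≤ (⌊x⌋₊ : ℝ) := by
    intro x hx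
    have := Nat.lt_floor_add_one x
    linarith
  have hLE2 : 2 ≤ L ^ E := by
    calc (2 : ℝ) ≤ L := by linarith
      _ = L ^ 1 := (pow_one _).symm
      _ ≤ L ^ E := pow_le_pow_right₀ hL1 (by omega)
  have hLG2 : 2 ≤ L ^ (A + 10) := by
    calc (2 : ℝ) ≤ L := by linarith
      _ = L ^ 1 := (pow_one _).symm
      _ ≤ L ^ (A + 10) := pow_le_pow_right₀ hL1 (by omega)
  have hz1 : (z : ℝ) ≤ L ^ E := by rw [hz]; exact Nat.floor_le (by positivity)
  have hz2 : L ^ E / 2 ≤ z := by rw [hz]; exact hfl _ hLE2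
  have hG1 : (G : ℝ) ≤ L ^ (A + 10) := by rw [hG]; exact Nat.floor_le (by positivity)
  have hG2 : L ^ (A + 10) / 2 ≤ G := by rw [hG]; exact hfl _ hLG2
  have hQ01 : (Q0 : ℝ) ≤ √X / L ^ Bm := by rw [hQ0]; exact Nat.floor_le (by positivity)
  have hQ02 : 1 ≤ Q0 := by
    rw [hQ0]
    apply Nat.le_floor
    rw [Nat.cast_one, le_div_iff₀ (by positivity), one_mul, hsX]
    refine (hLe2 _).trans ?_
    apply Real.exp_le_exp.2
    exact hN5 X (by omega)
  set LY := Real.log ((2 * X : ℕ) : ℝ) with hLY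
  have hLY1 : L ≤ LY := by
    apply Real.log_le_log hX0
    exact_mod_cast (by omega : X ≤ 2 * X)
  have hLY2 : LY ≤ 2 * L := by
    rw [hLY]
    push_cast
    rw [Real.log_mul (by norm_num) (by linarith)]
    have := Real.log_two_lt_d9
    linarith
  have hzLY : LY ^ B0 ≤ z := by
    calc LY ^ B0 ≤ (2 * L) ^ B0 := pow_le_pow_left₀ (by linarith) hLY2 _
      _ = 2 ^ (B0 + 1) * L ^ B0 / 2 := by rw [mul_pow, pow_succ]; ring
      _ ≤ L * L ^ B0 / 2 := by
          apply div_le_div_of_nonneg_right _ (by norm_num)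
          exact mul_le_mul_of_nonneg_right (by linarith) (by positivity)
      _ = L ^ (B0 + 1) / 2 := by rw [pow_succ]; ring
      _ ≤ L ^ E / 2 := by
          apply div_le_div_of_nonneg_right _ (by norm_num)
          exact pow_le_pow_right₀ hL1 (by omega)
      _ ≤ z := hz2
  have hz3 : 2 ≤ z := by
    have h1 : (2 : ℝ) ≤ z := by
      have h2 : L ≤ L ^ E := by
        calc L = L ^ 1 := (pow_one _).symm
          _ ≤ L ^ E := pow_le_pow_right₀ hL1 (by omega)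
      linarith
    exact_mod_cast h1
  have hzLYE : (z : ℝ) ≤ LY ^ E := hz1.trans (pow_le_pow_left₀ hL0.le hLY1 _)
  have hGg : (G : ℝ) + 1 ≤ L ^ (A + 11) := by
    rw [pow_succ L (A + 10)]
    nlinarith
  have hmm := hN2 X (by omega) z hz3 hzLY hzLYE G Q0 hGg hQ01
  -- the three exceptional sets
  set I := Icc (-(X : ℤ)) X with hI
  set T1 := X / L ^ (2 * (A + 49)) with hT1
  set T2 := L ^ (A + 3) with hT2
  have c1 := markov I (fun K => S2 X z Q0 G K) (fun K => S2_nn X z Q0 G K) _ T1 (by positivity) hmm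
  have c2 := markov I (fun K => PPK X K) (fun K => PPK_nn X K) _ T2 (by positivity) (pp_sum X (by omega))
  have c3 := hN3 X (by omega) 1 le_rfl (by
    rw [Nat.cast_one]
    exact Real.one_le_rpow (by linarith) (by norm_num)) (by
    rw [Nat.divisors_one, card_singleton, Nat.cast_one, pow_one]; exact hL1) 0 (by
    rw [Int.gcd_zero_left, Int.natAbs_natCast, Nat.cast_one, pow_one]; exact hL1)
  unfold Pool.Agent.Results.MP_391708_nt.FullConstantInClasses.exceptions at c3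
  have d1 : X ^ 2 / L ^ (2 * (A + 49) + (A + 1)) / T1 = X / L ^ (A + 1) := by
    rw [hT1, pow_add]
    field_simp
  rw [d1] at c1
  have d2 : √(X : ℝ) * (2 * (2 * √((2 * X : ℕ) : ℝ) * LY)) / T2 ≤ X / L ^ (A + 1) := by
    have e1 : √((2 * X : ℕ) : ℝ) ≤ 2 * √X := by
      rw [Real.sqrt_le_left (by positivity), mul_pow, Real.sq_sqrt hX0.le]
      push_cast
      linarith
    rw [div_le_div_iff₀ (by positivity) (by positivity)]
    calc √(X : ℝ) * (2 * (2 * √((2 * X : ℕ) : ℝ) * LY)) * L ^ (A + 1)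
        ≤ √(X : ℝ) * (2 * (2 * (2 * √X) * (2 * L))) * L ^ (A + 1) := by gcongr
      _ = 16 * (√X * √X) * (L * L ^ (A + 1)) := by ring
      _ = 16 * X * L ^ (A + 2) := by
          rw [Real.mul_self_sqrt hX0.le, pow_succ L (A + 1)]; ring
      _ ≤ L * X * L ^ (A + 2) := by
          apply mul_le_mul_of_nonneg_right _ (by positivity)
          exact mul_le_mul_of_nonneg_right (by linarith) hX0.le
      _ = X * L ^ (A + 3) := by rw [pow_succ L (A + 2)]; ring
  have c2' := c2.trans d2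
  have e3 : (X : ℝ) / (((1 : ℕ) : ℝ) * L ^ (A + 1)) = X / L ^ (A + 1) := by rw [Nat.cast_one, one_mul]
  rw [e3] at c3
  -- covering
  have hcov : I.filter (fun a => ¬ GoodK A (Bd + Bm) X a) ⊆
      (I.filter (fun a => T1 < S2 X z Q0 G (-a)) ∪ I.filter (fun a => T2 < PPK X (-a))) ∪
        I.filter (fun a => a ≡ 0 [ZMOD (1 : ℕ)] ∧
          ¬ Pool.Agent.Results.MP_391708_nt.FullConstantInClasses.Good (A + 49) X a) := by
    intro a ha
    rw [mem_filter] at ha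
    rw [mem_union, mem_union, mem_filter, mem_filter, mem_filter]
    by_contra hno
    push Not at hno
    obtain ⟨⟨h1, h2⟩, h3⟩ := hno
    have h1' := h1 ha.1
    have h2' := h2 ha.1
    have h3' := h3 ha.1 (Int.modEq_iff_dvd.2 (by simp))
    apply ha.2
    obtain ⟨_, H, hH1, hH2⟩ := h3'
    have hMs : (Nat.sqrt X) ^ 2 ≤ X := Nat.sqrt_le' X
    have hth := hH2 (Nat.sqrt X) hMs
    rw [theta_eq] at hth
    obtain ⟨hH0, hall⟩ := hdet X (by omega) z hz1 hz2 G hG2 Q0 (-a) H hQ02 h1' h2' hth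
    refine ⟨H, hH0, hH1, fun Q hQ y hy => ?_⟩
    have hBB : ∀ B' : ℕ, B' ≤ Bd + Bm → (Q : ℝ) ≤ √X * Real.exp (-(B' * Real.log L ^ 2)) := by
      intro B' hB'
      refine hQ.trans ?_
      apply mul_le_mul_of_nonneg_left _ hsX0.le
      apply Real.exp_le_exp.2
      have : (B' : ℝ) ≤ ((Bd + Bm : ℕ) : ℝ) := by exact_mod_cast hB'
      have h5 := mul_le_mul_of_nonneg_right this (sq_nonneg (Real.log L))
      linarith
    have hQ1 : Q ≤ Q0 := by
      rw [hQ0]
      apply Nat.le_floor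
      refine (hBB Bm (by omega)).trans ?_
      rw [div_eq_mul_inv]
      apply mul_le_mul_of_nonneg_left _ hsX0.le
      rw [Real.exp_neg]
      exact inv_anti₀ (by positivity) (hLe2 Bm)
    exact hall Q hQ1 (hBB Bd (by omega)) y (fun q r => by
      rw [Nat.le_sqrt']
      exact hy q r)
  have hneg : ∀ P : ℤ → Prop, (I.filter (fun a => P (-a))).card = (I.filter P).card := by
    intro P
    refine card_nbij' (fun a => -a) (fun a => -a) ?_ ?_ ?_ ?_
    · intro a ha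
      rw [mem_coe, mem_filter, hI, mem_Icc] at ha ⊢
      obtain ⟨⟨h1, h2⟩, h3⟩ := ha
      exact ⟨⟨by linarith, by linarith⟩, h3⟩
    · intro a ha
      rw [mem_coe, mem_filter, hI, mem_Icc] at ha ⊢
      obtain ⟨⟨h1, h2⟩, h3⟩ := ha
      refine ⟨⟨by linarith, by linarith⟩, ?_⟩
      rw [neg_neg]; exact h3
    · intro a _; simp
    · intro a _; simp
  have k1 := card_le_card hcov
  have k2 := card_union_le (I.filter (fun a => T1 < S2 X z Q0 G (-a)) ∪ I.filter (fun a => T2 < PPK X (-a)))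
        (I.filter (fun a => a ≡ 0 [ZMOD (1 : ℕ)] ∧
          ¬ Pool.Agent.Results.MP_391708_nt.FullConstantInClasses.Good (A + 49) X a))
  have k3 := card_union_le (I.filter (fun a => T1 < S2 X z Q0 G (-a))) (I.filter (fun a => T2 < PPK X (-a)))
  rw [hneg (fun K => T1 < S2 X z Q0 G K), hneg (fun K => T2 < PPK X K)] at k3
  have k4 : (((I.filter (fun a => ¬ GoodK A (Bd + Bm) X a)).card : ℕ) : ℝ) ≤
      ((I.filter (fun K => T1 < S2 X z Q0 G K)).card : ℝ) + ((I.filter (fun K => T2 < PPK X K)).card : ℝ) +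
        ((I.filter (fun a => a ≡ 0 [ZMOD (1 : ℕ)] ∧
          ¬ Pool.Agent.Results.MP_391708_nt.FullConstantInClasses.Good (A + 49) X a)).card : ℝ) := by
    exact_mod_cast k1.trans (k2.trans (Nat.add_le_add_right k3 _))
  have k5 : X / L ^ (A + 1) + X / L ^ (A + 1) + X / L ^ (A + 1) ≤ X / L ^ A := by
    have e1 : X / L ^ (A + 1) + X / L ^ (A + 1) + X / L ^ (A + 1) = 3 * X / L ^ (A + 1) := by ring
    rw [e1, div_le_div_iff₀ (by positivity) (by positivity), pow_succ L A]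
    have h5 : 3 * ((X : ℝ) * L ^ A) ≤ L * ((X : ℝ) * L ^ A) :=
      mul_le_mul_of_nonneg_right (by linarith) (by positivity)
    linarith
  refine le_trans ?_ k5
  refine k4.trans ?_
  have c3' : ((I.filter (fun a => a ≡ 0 [ZMOD (1 : ℕ)] ∧
          ¬ Pool.Agent.Results.MP_391708_nt.FullConstantInClasses.Good (A + 49) X a)).card : ℝ) ≤ X / L ^ (A + 1) := by
    refine le_trans (le_of_eq ?_) c3
    congr!
  linarith only [c1, c2', c3']

end Pool.Agent.Helper735_BDH
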